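import Pool.Agent.Helper24.EA.H

/-!
# Configurations which can be reached at a bounded cost
-/

set_option autoImplicit false
set_option linter.unusedSectionVars false

open MeasureTheory Measure Filter Topology

namespace Pool.Agent.Helper24.FN

open Pool.Agent.K3h93.EA

/-- the product of three configurations -/
def mv (ρ β α : V → ℝ) : V → ℝ := fun x => α x * (ρ x * β x)

lemma sp_mul {s t : ℝ} (hs : s = 1 ∨ s = -1) (ht : t = 1 ∨ t = -1) : s * t = 1 ∨ s * t = -1 := by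
  rcases hs with rfl | rfl <;> rcases ht with rfl | rfl <;> norm_num

lemma mv_spin {ρ β α : V → ℝ} (h1 : Spin ρ) (h2 : Spin β) (h3 : Spin α) : Spin (mv ρ β α) :=
  fun x => sp_mul (h3 x) (sp_mul (h1 x) (h2 x))

lemma mv_bp (ρ β α : V → ℝ) (e : E) : bp (mv ρ β α) e = bp α e * (bp ρ e * bp β e) := by
  unfold bp mv
  ring

lemma bp_sq {σ : V → ℝ} (h : Spin σ) (e : E) : bp σ e * bp σ e = 1 := by
  rcases h.bp_cases e with h | h <;> rw [h] <;> norm_num

lemma mv_sim {ρ β α : V → ℝ} (h1 : Spin ρ) (h : Sim Set.univ ρ β) : Sim Set.univ α (mv ρ β α) := by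
  refine ⟨h.1.subset fun x hx => ?_, fun x _ => Set.mem_univ x⟩
  intro h2
  apply hx
  unfold mv
  rw [h2]
  rcases h1 x with h3 | h3 <;> rw [h3] <;> ring

lemma WD_mv {J : E → ℝ} {ρ β α : V → ℝ} (h1 : Spin ρ)
    (h : ∀ e, bp ρ e ≠ bp β e → bp α e = bp ρ e) : WD J α (mv ρ β α) = WD J ρ β := by
  unfold WD
  refine finsum_congr fun e => ?_
  rw [mv_bp]
  by_cases he : bp ρ e = bp β e
  · rw [← he, bp_sq h1]
    ring
  · rw [h e he]
    have := bp_sq h1 e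
    have e1 : bp ρ e * (bp ρ e * bp β e) = bp β e := by
      rw [← mul_assoc, this, one_mul]
    rw [e1]

/-- `ρ` is the limit of finite changes of `σ` with bounded costs -/
def Rc (J : E → ℝ) (σ ρ : V → ℝ) : Prop :=
  ∃ C : ℝ, ∀ W : Finset E, ∃ α, Spin α ∧ Sim Set.univ σ α ∧ (∀ e ∈ W, bp α e = bp ρ e) ∧
    WD J σ α ≤ C

variable {J J' : E → ℝ} {σ ρ τ : V → ℝ}

lemma sim_refl (σ : V → ℝ) : Sim Set.univ σ σ := by
  refine ⟨?_, fun x _ => Set.mem_univ x⟩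
  convert Set.finite_empty
  ext x
  simp

lemma WD_self (J : E → ℝ) (σ : V → ℝ) : WD J σ σ = 0 := by
  unfold WD
  simp

lemma Rc.trans (hρ : Spin ρ) (h : Rc J σ ρ) (h' : Rc J ρ τ) : Rc J σ τ := by
  classical
  obtain ⟨C, hC⟩ := h
  obtain ⟨D, hD⟩ := h'
  refine ⟨C + D, fun W => ?_⟩
  obtain ⟨β, hβ, hs, hb, hc⟩ := hD W
  have hfin := supp_bp hs.1
  obtain ⟨α, hα, hs', hb', hc'⟩ := hC (W ∪ hfin.toFinset)
  refine ⟨mv ρ β α, mv_spin hρ hβ hα, hs'.trans (mv_sim hρ hs), fun e he => ?_, ?_⟩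
  · rw [mv_bp, hb' e (Finset.mem_union_left _ he), ← mul_assoc, bp_sq hρ, one_mul]
    exact hb e he
  · rw [WD_trans hs' (mv_sim hρ hs), WD_mv hρ fun e he => hb' e (Finset.mem_union_right _
      (hfin.mem_toFinset.2 he))]
    linarith

lemma WD_change {F : Finset E} (hF : ∀ e, e ∉ F → J' e = J e) {α : V → ℝ}
    (h : Sim Set.univ σ α) :
    WD J' σ α = WD J σ α + ∑ e ∈ F, (J' e - J e) * (bp σ e - bp α e) := by
  have h1 : ∑ᶠ e, ((J' e - J e) * (bp σ e - bp α e)) =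
      ∑ e ∈ F, (J' e - J e) * (bp σ e - bp α e) :=
    finsum_F fun e he => by rw [hF e he, sub_self, zero_mul]
  rw [← h1]
  unfold WD
  rw [← finsum_add_distrib (supp_WD h.1)]
  · refine finsum_congr fun e => ?_
    ring
  · refine F.finite_toSet.subset fun e he => ?_
    by_contra h2
    apply he
    simp only
    rw [hF e fun h3 => h2 (Finset.mem_coe.2 h3), sub_self, zero_mul]

lemma WD_change_abs {F : Finset E} (hF : ∀ e, e ∉ F → J' e = J e) {α : V → ℝ}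
    (h : Sim Set.univ σ α) (hσ : Spin σ) (hα : Spin α) :
    |WD J' σ α - WD J σ α| ≤ 2 * ∑ e ∈ F, |J' e - J e| := by
  rw [WD_change hF h, add_sub_cancel_left, Finset.mul_sum]
  refine (Finset.abs_sum_le_sum_abs _ _).trans (Finset.sum_le_sum fun e _ => ?_)
  rw [abs_mul]
  have h1 : |bp σ e - bp α e| ≤ 2 := by
    rcases hσ.bp_cases e with h | h <;> rcases hα.bp_cases e with h' | h' <;> rw [h, h'] <;>
      norm_num
  nlinarith [abs_nonneg (J' e - J e)]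

lemma Rc.change {F : Finset E} (hF : ∀ e, e ∉ F → J' e = J e) (hσ : Spin σ) (h : Rc J σ ρ) :
    Rc J' σ ρ := by
  obtain ⟨C, hC⟩ := h
  refine ⟨C + 2 * ∑ e ∈ F, |J' e - J e|, fun W => ?_⟩
  obtain ⟨α, hα, hs, hb, hc⟩ := hC W
  refine ⟨α, hα, hs, hb, ?_⟩
  have := (abs_le.1 (WD_change_abs hF hs hσ hα)).2
  linarith

lemma Rc.congr_right {ρ' : V → ℝ} (h : Rc J σ ρ) (he : ∀ e, bp ρ' e = bp ρ e) : Rc J σ ρ' := by
  obtain ⟨C, hC⟩ := h
  refine ⟨C, fun W => ?_⟩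
  obtain ⟨α, hα, hs, hb, hc⟩ := hC W
  exact ⟨α, hα, hs, fun e h => by rw [hb e h, he], hc⟩

lemma Sim.ng {A : Set V} {σ α : V → ℝ} (h : Sim A σ α) : Sim A (-σ) (-α) := by
  refine ⟨h.1.subset fun x hx => ?_, fun x hx => h.2 x ?_⟩
  · intro h1
    apply hx
    simp only [Pi.neg_apply]
    rw [h1]
  · intro h1
    apply hx
    simp only [Pi.neg_apply]
    rw [h1]

lemma Rc.neg_left (h : Rc J σ ρ) : Rc J (-σ) ρ := by
  obtain ⟨C, hC⟩ := h
  refine ⟨C, fun W => ?_⟩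
  obtain ⟨α, hα, hs, hb, hc⟩ := hC W
  refine ⟨-α, hα.neg, Sim.ng hs, fun e h => by rw [bp_neg, hb e h], ?_⟩
  rwa [WD_neg_left, WD_neg_right]

lemma Rc.neg_right (h : Rc J σ ρ) : Rc J σ (-ρ) := h.congr_right fun e => bp_neg _ e

/-- compactness of the configurations -/
lemma cpt (α : ℕ → V → ℝ) (hα : ∀ n, Spin (α n)) : ∃ ρ, Spin ρ ∧
    ∀ (X : Finset V) (N : ℕ), ∃ n, N ≤ n ∧ ∀ x ∈ X, α n x = ρ x := by
  classical
  set U : Ultrafilter ℕ := Filter.hyperfilter ℕ with hU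
  set ρ : V → ℝ := fun x => if ∀ᶠ n in (U : Filter ℕ), α n x = 1 then 1 else -1 with hρ
  have h1 : ∀ x, ∀ᶠ n in (U : Filter ℕ), α n x = ρ x := by
    intro x
    simp only [hρ]
    split_ifs with h
    · exact h
    · rw [← Ultrafilter.eventually_not] at h
      exact h.mono fun n hn => (hα n x).resolve_left hn
  refine ⟨ρ, fun x => ?_, fun X N => ?_⟩
  · simp only [hρ]
    split_ifs <;> simp
  · have h2 : ∀ᶠ n in (U : Filter ℕ), ∀ x ∈ X, α n x = ρ x :=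
      (Filter.eventually_all_finset X).2 fun x _ => h1 x
    have h3 : ∀ᶠ n in (U : Filter ℕ), N ≤ n := by
      have : (U : Filter ℕ) ≤ atTop := by
        rw [hU, ← Nat.cofinite_eq_atTop]
        exact Filter.hyperfilter_le_cofinite
      exact this (eventually_ge_atTop N)
    obtain ⟨n, hn⟩ := (h3.and h2).exists
    exact ⟨n, hn.1, hn.2⟩

/-- the ends of the bonds -/
noncomputable def ends (W : Finset E) : Finset V := by
  classical
  exact W.image (fun e => e.1) ∪ W.image fun e => e.1 + (Pi.single e.2 (1 : ℤ) : V)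

lemma bp_ends {W : Finset E} {α ρ : V → ℝ} (h : ∀ x ∈ ends W, α x = ρ x) {e : E} (he : e ∈ W) :
    bp α e = bp ρ e := by
  classical
  unfold bp
  rw [h e.1 ?_, h (e.1 + (Pi.single e.2 (1 : ℤ) : V)) ?_]
  · unfold ends
    exact Finset.mem_union_right _ (Finset.mem_image.2 ⟨e, he, rfl⟩)
  · unfold ends
    exact Finset.mem_union_left _ (Finset.mem_image.2 ⟨e, he, rfl⟩)

/-- limits of almost minimal finite changes are ground states -/
lemma limit_gs {m : ℝ} (hm : ∀ α, Spin α → Sim Set.univ σ α → m ≤ WD J σ α)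
    (α : ℕ → V → ℝ) (hα : ∀ n, Spin (α n)) (hs : ∀ n, Sim Set.univ σ (α n))
    (hw : ∀ n : ℕ, WD J σ (α n) ≤ m + 1 / (n + 1)) :
    ∃ ρ, GS Set.univ J ρ ∧ Rc J σ ρ ∧
      ∀ (X : Finset V) (N : ℕ), ∃ n, N ≤ n ∧ ∀ x ∈ X, α n x = ρ x := by
  obtain ⟨ρ, hρ, hlim⟩ := cpt α hα
  refine ⟨ρ, ⟨hρ, fun β hβ hsb => ?_⟩, ⟨m + 1, fun W => ?_⟩, hlim⟩
  · have hfin := supp_bp hsb.1
    refine le_of_forall_pos_le_add fun ε hε => ?_
    obtain ⟨N, hN⟩ := exists_nat_one_div_lt hε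
    obtain ⟨n, hn, hx⟩ := hlim (ends hfin.toFinset) N
    have h1 : ∀ e, bp ρ e ≠ bp β e → bp (α n) e = bp ρ e := fun e he =>
      bp_ends hx (hfin.mem_toFinset.2 he)
    have h2 := hm (mv ρ β (α n)) (mv_spin hρ hβ (hα n)) ((hs n).trans (mv_sim hρ hsb))
    rw [WD_trans (hs n) (mv_sim hρ hsb), WD_mv hρ h1] at h2
    have h3 := hw n
    have h4 : (1 : ℝ) / (n + 1) ≤ 1 / (N + 1) := by
      apply one_div_le_one_div_of_le
      · positivity
      · have : (N : ℝ) ≤ n := by exact_mod_cast hn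
        linarith
    linarith
  · obtain ⟨n, -, hx⟩ := hlim (ends W) 0
    refine ⟨α n, hα n, hs n, fun e he => bp_ends hx he, (hw n).trans ?_⟩
    have : (1 : ℝ) / (n + 1) ≤ 1 := by
      rw [div_le_one (by positivity)]
      have : (0 : ℝ) ≤ n := Nat.cast_nonneg n
      linarith
    linarith

lemma lower_change (hg : GS Set.univ J σ) {F : Finset E} (hF : ∀ e, e ∉ F → J' e = J e)
    {α : V → ℝ} (hα : Spin α) (hs : Sim Set.univ σ α) :
    -(2 * ∑ e ∈ F, |J' e - J e|) ≤ WD J' σ α := by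
  have h1 := (abs_le.1 (WD_change_abs hF hs hg.1 hα)).1
  have h2 := hg.2 α hα hs
  linarith

/-- **A ground state for changed couplings.** -/
lemma exists_reach (hg : GS Set.univ J σ) {F : Finset E} (hF : ∀ e, e ∉ F → J' e = J e) :
    ∃ ρ, GS Set.univ J' ρ ∧ Rc J' σ ρ := by
  set S : Set ℝ := {x | ∃ α, Spin α ∧ Sim Set.univ σ α ∧ x = WD J' σ α} with hS
  have hne : S.Nonempty := ⟨_, σ, hg.1, sim_refl σ, rfl⟩
  have hbd : BddBelow S := ⟨-(2 * ∑ e ∈ F, |J' e - J e|), by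
    rintro x ⟨α, hα, hs, rfl⟩
    exact lower_change hg hF hα hs⟩
  have h1 : ∀ n : ℕ, ∃ α, Spin α ∧ Sim Set.univ σ α ∧ WD J' σ α ≤ sInf S + 1 / (n + 1) := by
    intro n
    obtain ⟨x, ⟨α, hα, hs, rfl⟩, hx⟩ := exists_lt_of_csInf_lt hne
      (show sInf S < sInf S + 1 / ((n : ℝ) + 1) by
        have : (0 : ℝ) < 1 / ((n : ℝ) + 1) := by positivity
        linarith)
    exact ⟨α, hα, hs, hx.le⟩
  choose α hα hs hw using h1
  obtain ⟨ρ, h2, h3, -⟩ := limit_gs (m := sInf S)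
    (fun α hα hs => csInf_le hbd ⟨α, hα, hs, rfl⟩) α hα hs hw
  exact ⟨ρ, h2, h3⟩

/-- distinct pairs of ground states can not be reached from each other -/
def Inc (J : E → ℝ) : Prop := ∀ σ ρ, GS Set.univ J σ → GS Set.univ J ρ → Rc J σ ρ →
  ρ = σ ∨ ρ = -σ

lemma Inc.back (hJ : Inc J) (hg : GS Set.univ J σ) (hr : GS Set.univ J' ρ) {F : Finset E}
    (hF : ∀ e, e ∉ F → J' e = J e) (h : Rc J' σ ρ) : Rc J ρ σ := by
  have hF' : ∀ e, e ∉ F → J e = J' e := fun e he => (hF e he).symm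
  obtain ⟨σ', h1, h2⟩ := exists_reach hr hF'
  have h3 : Rc J σ σ' := (h.change hF' hg.1).trans hr.1 h2
  rcases hJ σ σ' hg h1 h3 with rfl | rfl
  · exact h2
  · exact h2.congr_right fun e => (bp_neg _ e).symm

lemma Inc.inj (hJ : Inc J) {σ' : V → ℝ} (hg : GS Set.univ J σ) (hg' : GS Set.univ J σ')
    (hr : GS Set.univ J' ρ) {F : Finset E} (hF : ∀ e, e ∉ F → J' e = J e) (h : Rc J' σ ρ)
    (h' : Rc J' σ' ρ) : σ' = σ ∨ σ' = -σ := by
  have hF' : ∀ e, e ∉ F → J e = J' e := fun e he => (hF e he).symm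
  exact hJ σ σ' hg hg' ((h.change hF' hg.1).trans hr.1 (hJ.back hg' hr hF h'))

end Pool.Agent.Helper24.FN
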