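import Pool.Agent.Helper24.FN.A

/-!
# The boundary term of a class of configurations
-/

set_option autoImplicit false
set_option linter.unusedSectionVars false

open MeasureTheory Measure Filter Topology

namespace Pool.Agent.Helper24.FN

open Pool.Agent.K3h93.EA Pool.Agent.K3h93.EF Pool.Agent.Helper24.EA

/-- the bonds which touch `X` -/
noncomputable def NB (X : Finset V) : Finset E := by
  classical
  exact (X ×ˢ Finset.univ) ∪
    (X ×ˢ Finset.univ).image fun e : E => ((e.1 - (Pi.single e.2 (1 : ℤ) : V), e.2) : E)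

lemma mem_NB {X : Finset V} {e : E} :
    e ∈ NB X ↔ e.1 ∈ X ∨ e.1 + (Pi.single e.2 (1 : ℤ) : V) ∈ X := by
  classical
  unfold NB
  rw [Finset.mem_union, Finset.mem_image]
  constructor
  · rintro (h | ⟨f, hf, rfl⟩)
    · exact Or.inl (Finset.mem_product.1 h).1
    · right
      simpa using (Finset.mem_product.1 hf).1
  · rintro (h | h)
    · exact Or.inl (Finset.mem_product.2 ⟨h, Finset.mem_univ _⟩)
    · right
      refine ⟨(e.1 + (Pi.single e.2 (1 : ℤ) : V), e.2), Finset.mem_product.2 ⟨h, Finset.mem_univ _⟩,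
        ?_⟩
      simp

lemma FB_sub_NB (L : ℕ) (A : Finset V) : FB L ⊆ NB (bxF L ∪ A) := fun e he => by
  rw [mem_NB]
  exact Or.inl (Finset.mem_union_left _ (mem_bxF.2 (FB_iff.1 he).1))

open Classical in
/-- `s` or `-s` in the box, `σ` outside, flipped in `A` -/
noncomputable def cfg (L : ℕ) (p : Bool × Finset V) (s σ : V → ℝ) : V → ℝ := fun x =>
  if x ∈ Bx L then (if p.1 then s x else -s x) else if x ∈ p.2 then -σ x else σ x

variable {L : ℕ} {p : Bool × Finset V} {s s' σ : V → ℝ} {J J' : E → ℝ}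

lemma cfg_spin (hs : Spin s) (hσ : Spin σ) : Spin (cfg L p s σ) := by
  intro x
  unfold cfg
  split_ifs
  · exact hs x
  · exact hs.neg x
  · exact hσ.neg x
  · exact hσ x

lemma cfg_ne {x : V} (h : cfg L p s σ x ≠ σ x) : x ∈ bxF L ∪ p.2 := by
  rw [Finset.mem_union]
  by_contra hc
  rw [not_or] at hc
  apply h
  unfold cfg
  rw [if_neg fun h => hc.1 (mem_bxF.2 h), if_neg hc.2]

lemma cfg_sim : Sim Set.univ σ (cfg L p s σ) :=
  ⟨(bxF L ∪ p.2).finite_toSet.subset fun _ hx => Finset.mem_coe.2 (cfg_ne hx),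
    fun x _ => Set.mem_univ x⟩

lemma cfg_bp {e : E} (he : e ∈ FB L) : bp (cfg L p s σ) e = bp s e := by
  rw [FB_iff] at he
  unfold bp cfg
  rw [if_pos he.1, if_pos he.2]
  split_ifs
  · rfl
  · ring

lemma cfg_off {e : E} (he : e ∉ NB (bxF L ∪ p.2)) : bp (cfg L p s σ) e = bp σ e := by
  rw [mem_NB, not_or] at he
  unfold bp
  have h1 : ∀ x, x ∉ bxF L ∪ p.2 → cfg L p s σ x = σ x := fun x hx => by
    by_contra hc
    exact hx (cfg_ne hc)
  rw [h1 _ he.1, h1 _ he.2]

/-- the change of the (negative) energy outside of the box -/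
noncomputable def OUT (L : ℕ) (J : E → ℝ) (p : Bool × Finset V) (s σ : V → ℝ) : ℝ := by
  classical
  exact ∑ e ∈ NB (bxF L ∪ p.2) \ FB L, J e * (bp (cfg L p s σ) e - bp σ e)

/-- the boundary term -/
noncomputable def WT (L : ℕ) (J : E → ℝ) (s σ : V → ℝ) : ℝ := ⨆ p : Bool × Finset V, OUT L J p s σ

lemma OUT_congr (h : ∀ e, e ∉ FB L → J e = J' e) : OUT L J p s σ = OUT L J' p s σ := by
  classical
  unfold OUT
  refine Finset.sum_congr rfl fun e he => ?_
  rw [h e (Finset.mem_sdiff.1 he).2]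

lemma WT_congr (h : ∀ e, e ∉ FB L → J e = J' e) : WT L J s σ = WT L J' s σ := by
  unfold WT
  congr 1
  funext p
  exact OUT_congr h

lemma WD_cfg (J : E → ℝ) (s σ : V → ℝ) (p : Bool × Finset V) :
    WD J σ (cfg L p s σ) = ∑ e ∈ FB L, J e * (bp σ e - bp s e) - OUT L J p s σ := by
  classical
  have h1 : WD J σ (cfg L p s σ) =
      ∑ e ∈ NB (bxF L ∪ p.2), J e * (bp σ e - bp (cfg L p s σ) e) := by
    unfold WD
    exact finsum_F fun e he => by rw [cfg_off he, sub_self, mul_zero]
  rw [h1, ← Finset.sum_sdiff (FB_sub_NB L p.2)]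
  have h2 : ∑ e ∈ FB L, J e * (bp σ e - bp (cfg L p s σ) e) =
      ∑ e ∈ FB L, J e * (bp σ e - bp s e) :=
    Finset.sum_congr rfl fun e he => by rw [cfg_bp he]
  have h3 : ∑ e ∈ NB (bxF L ∪ p.2) \ FB L, J e * (bp σ e - bp (cfg L p s σ) e) =
      -OUT L J p s σ := by
    unfold OUT
    rw [← Finset.sum_neg_distrib]
    exact Finset.sum_congr rfl fun e _ => by ring
  rw [h2, h3]
  ring

lemma OUT_bdd (hg : GS Set.univ J' σ) (hJ : ∀ e, e ∉ FB L → J' e = J e) (hs : Spin s) :
    BddAbove (Set.range fun p : Bool × Finset V => OUT L J p s σ) := by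
  refine ⟨∑ e ∈ FB L, J' e * (bp σ e - bp s e), ?_⟩
  rintro x ⟨p, rfl⟩
  simp only
  rw [OUT_congr (J' := J') fun e he => (hJ e he).symm]
  have h1 := hg.2 _ (cfg_spin (L := L) (p := p) hs hg.1) cfg_sim
  rw [WD_cfg] at h1
  linarith

/-- **The maximisers in the box are restrictions of ground states.** -/
lemma gsb_reach (hg : GS Set.univ J' σ) (hJ : ∀ e, e ∉ FB L → J' e = J e) (hs : Spin s)
    (hmax : ∀ s', Spin s' → ∑ e ∈ FB L, J e * bp s' e + WT L J s' σ ≤
      ∑ e ∈ FB L, J e * bp s e + WT L J s σ) :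
    ∃ ρ, GS Set.univ J ρ ∧ Rc J σ ρ ∧ ∀ e ∈ FB L, bp ρ e = bp s e := by
  classical
  set S : Set ℝ := {x | ∃ α, Spin α ∧ Sim Set.univ σ α ∧ x = WD J σ α} with hS
  have hne : S.Nonempty := ⟨_, σ, hg.1, sim_refl σ, rfl⟩
  have hJ' : ∀ e, e ∉ FB L → J e = J' e := fun e he => (hJ e he).symm
  have hbd : BddBelow S := ⟨-(2 * ∑ e ∈ FB L, |J e - J' e|), by
    rintro x ⟨α, hα, hs, rfl⟩
    exact lower_change hg hJ' hα hs⟩
  -- the value of the maximum
  have h1 : ∀ α, Spin α → Sim Set.univ σ α → ∑ e ∈ FB L, J e * bp σ e - WD J σ α ≤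
      ∑ e ∈ FB L, J e * bp s e + WT L J s σ := by
    intro α hα hsim
    refine le_trans ?_ (hmax α hα)
    set A : Finset V := hsim.1.toFinset with hA
    have hcfg : cfg L (true, A) α σ = α := by
      funext x
      unfold cfg
      by_cases hx : x ∈ Bx L
      · rw [if_pos hx, if_pos rfl]
      · rw [if_neg hx]
        by_cases hx' : x ∈ A
        · rw [if_pos hx']
          have h2 : α x ≠ σ x := hsim.1.mem_toFinset.1 hx'
          rcases hα x with h3 | h3 <;> rcases hg.1 x with h4 | h4 <;> rw [h3, h4] at h2 ⊢ <;>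
            first | (exact absurd rfl h2) | norm_num
        · rw [if_neg hx']
          by_contra h2
          exact hx' (hsim.1.mem_toFinset.2 fun h => h2 h.symm)
    have h2 := WD_cfg (L := L) J α σ (true, A)
    rw [hcfg] at h2
    have h3 : OUT L J (true, A) α σ ≤ WT L J α σ :=
      le_ciSup (f := fun p : Bool × Finset V => OUT L J p α σ) (OUT_bdd hg hJ hα) (true, A)
    have h4 : ∑ e ∈ FB L, J e * (bp σ e - bp α e) =
        ∑ e ∈ FB L, J e * bp σ e - ∑ e ∈ FB L, J e * bp α e := by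
      rw [← Finset.sum_sub_distrib]
      exact Finset.sum_congr rfl fun e _ => by ring
    rw [h2, h4]
    linarith
  have h2 : ∑ e ∈ FB L, J e * bp σ e - (∑ e ∈ FB L, J e * bp s e + WT L J s σ) ≤ sInf S := by
    refine le_csInf hne ?_
    rintro x ⟨α, hα, hsim, rfl⟩
    have := h1 α hα hsim
    linarith
  have h3 : ∀ n : ℕ, ∃ p : Bool × Finset V, WD J σ (cfg L p s σ) ≤ sInf S + 1 / (n + 1) := by
    intro n
    have hpos : (0 : ℝ) < 1 / ((n : ℝ) + 1) := by positivity
    obtain ⟨p, hp⟩ := exists_lt_of_lt_ciSup (f := fun p : Bool × Finset V => OUT L J p s σ)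
      (show WT L J s σ - 1 / ((n : ℝ) + 1) < ⨆ p : Bool × Finset V, OUT L J p s σ by
        unfold WT
        linarith)
    refine ⟨p, ?_⟩
    have h4 : ∑ e ∈ FB L, J e * (bp σ e - bp s e) =
        ∑ e ∈ FB L, J e * bp σ e - ∑ e ∈ FB L, J e * bp s e := by
      rw [← Finset.sum_sub_distrib]
      exact Finset.sum_congr rfl fun e _ => by ring
    rw [WD_cfg, h4]
    linarith
  choose p hp using h3
  obtain ⟨ρ, h4, h5, h6⟩ := limit_gs (J := J) (σ := σ) (m := sInf S)
    (fun α hα hs => csInf_le hbd ⟨α, hα, hs, rfl⟩) (fun n => cfg L (p n) s σ)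
    (fun n => cfg_spin hs hg.1) (fun n => cfg_sim) hp
  refine ⟨ρ, h4, h5, ?_⟩
  obtain ⟨n, -, hn⟩ := h6 (ends (FB L)) 0
  intro e he
  rw [← bp_ends hn he, cfg_bp he]

/-! ### It is a boundary term -/

lemma WT_spins (J : E → ℝ) (σ : V → ℝ)
    (h : ∀ x ∈ Bx L, (∃ i, x i = 0 ∨ x i = L) → s x = s' x) : WT L J s σ = WT L J s' σ := by
  classical
  unfold WT
  congr 1
  funext p
  unfold OUT
  refine Finset.sum_congr rfl fun e he => ?_
  have he' := (Finset.mem_sdiff.1 he).2
  have h1 : st (-(0 : V)) e ∉ FB L := by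
    rw [neg_zero]
    unfold st
    rwa [add_zero]
  have h2 := end_bd h1
  rw [sub_zero, sub_zero] at h2
  have h3 : ∀ x, (x ∈ Bx L → x ∈ bd L) → cfg L p s σ x = cfg L p s' σ x := by
    intro x hx
    unfold cfg
    by_cases hx' : x ∈ Bx L
    · rw [if_pos hx', if_pos hx', h x hx' (hx hx').2]
    · rw [if_neg hx', if_neg hx']
  unfold bp
  rw [h3 _ h2.1, h3 _ h2.2]

lemma WT_meas (s : V → ℝ) {g : (E → ℝ) → V → ℝ} (hg : Measurable g) :
    Measurable fun J => WT L J s (g J) := by
  classical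
  unfold WT
  refine Measurable.iSup fun p => ?_
  unfold OUT
  have hx : ∀ x, Measurable fun J => g J x := fun x => (measurable_pi_apply x).comp hg
  have hc : ∀ x, Measurable fun J => cfg L p s (g J) x := by
    intro x
    unfold cfg
    split_ifs
    · exact measurable_const
    · exact measurable_const
    · exact (hx x).neg
    · exact hx x
  refine Finset.measurable_sum _ fun e _ => (measurable_pi_apply e).mul (Measurable.sub ?_ ?_)
  · unfold bp
    exact (hc _).mul (hc _)
  · unfold bp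
    exact (hx _).mul (hx _)

/-- the boundary term of a measurable choice of ground states -/
noncomputable def wg (L : ℕ) (K : E → ℝ) (g : (E → ℝ) → V → ℝ) (J : E → ℝ) (s : V → ℝ) : ℝ :=
  WT L J s (g (patch (FB L : Finset E) J K))

lemma wg_bt (K : E → ℝ) {g : (E → ℝ) → V → ℝ} (hg : Measurable g) : BT L (wg L K g) := by
  refine ⟨fun J J' s h => ?_, fun J s s' h => WT_spins J _ h, fun s => ?_⟩
  · unfold wg
    have h1 : patch ((FB L : Finset E) : Set E) J K = patch ((FB L : Finset E) : Set E) J' K := by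
      funext e
      by_cases he : e ∈ ((FB L : Finset E) : Set E)
      · rw [patch_mem he, patch_mem he]
      · rw [patch_not he, patch_not he]
        exact h e fun h' => he (Finset.mem_coe.2 h')
    rw [h1]
    exact WT_congr h
  · unfold wg
    refine WT_meas s (hg.comp ?_)
    exact (measurable_patch _).comp (measurable_id.prodMk measurable_const)

/-- measurable ground states in the box -/
lemma exists_gsb {w : (E → ℝ) → (V → ℝ) → ℝ} (hw : BT L w) :
    ∃ φ : (E → ℝ) → V → ℝ, Measurable φ ∧ ∀ J, GSB L w J (φ J) := by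
  obtain ⟨T, hT, hmax, -⟩ := exists_argmax (ι := {x // x ∈ bxF L} → Bool)
    (H := fun T J => HE L w J (ext L T)) (fun T => by
      unfold HE
      refine Measurable.add (Finset.measurable_sum _ fun e _ => ?_) (hw.meas _)
      exact (measurable_pi_apply e).mul measurable_const)
  refine ⟨fun J => ext L (T J), meas_of_pre hT _, fun J => ⟨ext_spin L _, fun s' hs' => ?_⟩⟩
  obtain ⟨T', hT'⟩ := exists_ext hs' L
  rw [← HE_congr hw J hT']
  exact hmax J T'

end Pool.Agent.Helper24.FN
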