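import Pool.Agent.Helper24.FN.B

/-!
# A measurable enumeration of finitely many ground states
-/

set_option autoImplicit false
set_option linter.unusedSectionVars false

open MeasureTheory Measure Filter Topology

namespace Pool.Agent.Helper24.FN

open Pool.Agent.K3h93.EA Pool.Agent.K3h93.EF Pool.Agent.Helper24.EA
open Pool.Agent.R239.EA (dC nx u GI Gn bx tb Lw Inf spin GA GA_iff GI_congr GI_meas spin_pm dC_finite
  eq_empty_of_dC energy bx_sub nrm_zero mem_bx nrm congruent not_congruent edge_iff)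

variable {J : E → ℝ} {σ : V → ℝ}

lemma ga_iff : GA J σ ↔ Spin σ ∧ ∀ ρ, Spin ρ → {x | ρ x ≠ σ x}.Finite → ρ ≠ σ → 0 < WD J σ ρ :=
  GA_iff

lemma ga_gs (h : GA J σ) : GS Set.univ J σ := by
  rw [ga_iff] at h
  refine ⟨h.1, fun ρ hρ hs => ?_⟩
  by_cases he : ρ = σ
  · rw [he, WD_self]
  · exact (h.2 ρ hρ hs.1 he).le

lemma gs_ga (hJ : Gn J) (h : GS Set.univ J σ) : GA J σ := by
  classical
  rw [ga_iff]
  refine ⟨h.1, fun ρ hρ hfin hne => lt_of_le_of_ne
    (h.2 ρ hρ ⟨hfin, fun x _ => Set.mem_univ x⟩) fun h0 => ?_⟩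
  set D : Set V := {x | ρ x ≠ σ x} with hD
  have hDne : D ≠ ∅ := by
    intro h1
    apply hne
    funext x
    by_contra hc
    have : x ∈ D := hc
    rw [h1] at this
    exact this
  have hdf := dC_finite hfin
  have h1 : WD J σ ρ = ∑ᶠ e ∈ dC D, 2 * (J e * (σ e.1 * σ (nx e))) := energy h.1 hρ
  set T := hdf.toFinset with hT
  have h2 : ∑ᶠ e ∈ dC D, 2 * (J e * (σ e.1 * σ (nx e))) = ∑ e ∈ T, 2 * (J e * bp σ e) :=
    finsum_mem_eq_finite_toFinset_sum _ hdf
  have h3 : ∑ e ∈ T.filter (fun e => bp σ e = 1), J e =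
      ∑ e ∈ T.filter (fun e => ¬ bp σ e = 1), J e := by
    rw [h1, h2, ← Finset.mul_sum] at h0
    have h4 : ∑ e ∈ T, J e * bp σ e = 0 := by linarith
    rw [← Finset.sum_filter_add_sum_filter_not T (fun e => bp σ e = 1)] at h4
    have h5 : ∑ e ∈ T.filter (fun e => bp σ e = 1), J e * bp σ e =
        ∑ e ∈ T.filter (fun e => bp σ e = 1), J e :=
      Finset.sum_congr rfl fun e he => by rw [(Finset.mem_filter.1 he).2, mul_one]
    have h6 : ∑ e ∈ T.filter (fun e => ¬ bp σ e = 1), J e * bp σ e =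
        -∑ e ∈ T.filter (fun e => ¬ bp σ e = 1), J e := by
      rw [← Finset.sum_neg_distrib]
      refine Finset.sum_congr rfl fun e he => ?_
      have h7 := (h.1.bp_cases e).resolve_left (Finset.mem_filter.1 he).2
      rw [h7]
      ring
    rw [h5, h6] at h4
    linarith
  refine hJ _ _ (Finset.disjoint_filter_filter_not T T fun e => bp σ e = 1) ?_ h3
  have h7 : dC D ≠ ∅ := fun h8 => hDne (eq_empty_of_dC 0 hfin h8)
  obtain ⟨e, he⟩ := Set.nonempty_iff_ne_empty.2 h7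
  refine ⟨e, ?_⟩
  have he' : e ∈ T := hdf.mem_toFinset.2 he
  by_cases h8 : bp σ e = 1
  · exact Or.inl (Finset.mem_filter.2 ⟨he', h8⟩)
  · exact Or.inr (Finset.mem_filter.2 ⟨he', h8⟩)

/-- the existence of ground states with a local property is measurable -/
lemma hit_meas (X : Finset V) (q : (V → ℝ) → Prop)
    (hq : ∀ α α' : V → ℝ, (∀ y ∈ X, α y = α' y) → q α → q α') :
    MeasurableSet {J : E → ℝ | ∃ ρ, GA J ρ ∧ q ρ} := by
  classical
  have h1 : {J : E → ℝ | ∃ ρ, GA J ρ ∧ q ρ} =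
      ⋂ n : ℕ, ⋃ S : Finset V, {J : E → ℝ | GI (bx 0 n) J (spin S)} ∩ {_J | q (spin S)} := by
    ext J
    simp only [Set.mem_ofPred_eq, Set.mem_iInter, Set.mem_iUnion, Set.mem_inter_iff]
    constructor
    · rintro ⟨ρ, hρ, hqρ⟩ n
      set S : Finset V := ((bx (0 : V) (n + 1)) ∪ X).filter fun y => ρ y = -1 with hS
      have hsp : ∀ y ∈ bx (0 : V) (n + 1) ∪ X, ρ y = spin S y := by
        intro y hy
        unfold spin
        have hρy := (hρ n).1 y
        by_cases h : ρ y = -1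
        · rw [if_pos (Finset.mem_filter.2 ⟨hy, h⟩), h]
        · have h' : y ∉ S := fun h' => h (Finset.mem_filter.1 h').2
          rw [if_neg h']
          exact hρy.resolve_right h
      exact ⟨S, GI_congr (fun _ _ => rfl) (fun y hy => hsp y (Finset.mem_union_left _ hy))
        (spin_pm S) (hρ n), hq _ _ (fun y hy => hsp y (Finset.mem_union_right _ hy)) hqρ⟩
    · intro h
      choose S hS1 hS2 using h
      obtain ⟨ρ, hρ, hlim⟩ := cpt (fun n => spin (S n)) fun n => spin_pm (S n)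
      refine ⟨ρ, fun m => ?_, ?_⟩
      · obtain ⟨n, hn, hx⟩ := hlim (bx (0 : V) (m + 1)) m
        refine GI_congr (fun _ _ => rfl) hx hρ ((hS1 n).mono ?_)
        exact bx_sub (by rw [sub_self, nrm_zero]; omega)
      · obtain ⟨n, -, hx⟩ := hlim X 0
        exact hq _ _ hx (hS2 n)
  rw [h1]
  exact MeasurableSet.iInter fun n => MeasurableSet.iUnion fun S =>
    (GI_meas _ _).inter (MeasurableSet.const _)

/-- the ground states with spin `1` at the origin -/
def GZ (J : E → ℝ) : Set (V → ℝ) := {ρ | GA J ρ ∧ ρ 0 = 1}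

open Classical in
/-- the pattern in a box -/
noncomputable def ph (r : ℕ) (ρ : V → ℝ) : Finset V := (bx (0 : V) r).filter fun y => ρ y = -1

lemma ph_dep {r : ℕ} {α α' : V → ℝ} (h : ∀ y ∈ bx (0 : V) r, α y = α' y) : ph r α = ph r α' := by
  classical
  unfold ph
  exact Finset.filter_congr fun y hy => by rw [h y hy]

lemma ph_eq {r : ℕ} {α α' : V → ℝ} (h1 : Spin α) (h2 : Spin α') (h : ph r α = ph r α') {y : V}
    (hy : y ∈ bx (0 : V) r) : α y = α' y := by
  classical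
  have h3 : α y = -1 ↔ α' y = -1 := by
    have h4 : y ∈ ph r α ↔ y ∈ ph r α' := by rw [h]
    unfold ph at h4
    rw [Finset.mem_filter, Finset.mem_filter] at h4
    simpa only [hy, true_and] using h4
  rcases h2 y with h5 | h5
  · rw [h5]
    refine (h1 y).resolve_right fun h6 => ?_
    rw [h3.1 h6] at h5
    norm_num at h5
  · rw [h5]
    exact h3.2 h5

/-- the first box in which the patterns of the ground states are different -/
def AQ (k r : ℕ) (Q : Finset (Finset V)) : Set (E → ℝ) :=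
  {J | ph r '' GZ J = (Q : Set (Finset V)) ∧ Q.card = k ∧
    ∀ r' < r, ∀ Q' : Finset (Finset V), ph r' '' GZ J = (Q' : Set (Finset V)) → Q'.card ≠ k}

lemma pat_meas (r : ℕ) (P : Finset V) : MeasurableSet {J : E → ℝ | P ∈ ph r '' GZ J} := by
  have h1 : {J : E → ℝ | P ∈ ph r '' GZ J} = {J | ∃ ρ, GA J ρ ∧ (ρ 0 = 1 ∧ ph r ρ = P)} := by
    ext J
    constructor
    · rintro ⟨ρ, ⟨h1, h2⟩, h3⟩
      exact ⟨ρ, h1, h2, h3⟩
    · rintro ⟨ρ, h1, h2, h3⟩
      exact ⟨ρ, ⟨h1, h2⟩, h3⟩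
  rw [h1]
  refine hit_meas (bx (0 : V) r ∪ {0}) _ fun α α' h => ?_
  rintro ⟨h2, h3⟩
  refine ⟨?_, ?_⟩
  · rw [← h 0 (Finset.mem_union_right _ (Finset.mem_singleton_self _))]
    exact h2
  · rw [← ph_dep fun y hy => h y (Finset.mem_union_left _ hy)]
    exact h3

lemma img_meas (r : ℕ) (Q : Finset (Finset V)) :
    MeasurableSet {J : E → ℝ | ph r '' GZ J = (Q : Set (Finset V))} := by
  have h1 : {J : E → ℝ | ph r '' GZ J = (Q : Set (Finset V))} =
      ⋂ P : Finset V, {J : E → ℝ | P ∈ ph r '' GZ J ↔ P ∈ Q} := by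
    ext J
    simp only [Set.mem_ofPred_eq, Set.mem_iInter]
    rw [Set.ext_iff]
    rfl
  rw [h1]
  refine MeasurableSet.iInter fun P => ?_
  by_cases hP : P ∈ Q
  · simp only [hP, iff_true]
    exact pat_meas r P
  · simp only [hP, iff_false]
    exact (pat_meas r P).compl

lemma AQ_meas (k r : ℕ) (Q : Finset (Finset V)) : MeasurableSet (AQ k r Q) := by
  have h1 : AQ k r Q = {J : E → ℝ | ph r '' GZ J = (Q : Set (Finset V))} ∩
      ({_J | Q.card = k} ∩ ⋂ r' : ℕ, ⋂ _ : r' < r, ⋂ Q' : Finset (Finset V),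
        ({J : E → ℝ | ph r' '' GZ J = (Q' : Set (Finset V))}ᶜ ∪ {_J | Q'.card ≠ k})) := by
    ext J
    unfold AQ
    simp only [Set.mem_ofPred_eq, Set.mem_inter_iff, Set.mem_iInter, Set.mem_union,
      Set.mem_compl_iff]
    refine and_congr_right fun _ => and_congr_right fun _ => forall_congr' fun r' =>
      forall_congr' fun _ => forall_congr' fun Q' => ?_
    tauto
  rw [h1]
  refine (img_meas r Q).inter ((MeasurableSet.const _).inter (MeasurableSet.iInter fun r' =>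
    MeasurableSet.iInter fun _ => MeasurableSet.iInter fun Q' => ?_))
  exact (img_meas r' Q').compl.union (MeasurableSet.const _)

/-- an enumeration of a finite set of patterns -/
noncomputable def en (k : ℕ) (Q : Finset (Finset V)) (c : Fin k) : Finset V := by
  classical
  exact if h : Q.card = k then ((Q.equivFinOfCardEq h).symm c : Q).1 else ∅

lemma en_mem {k : ℕ} {Q : Finset (Finset V)} (h : Q.card = k) (c : Fin k) : en k Q c ∈ Q := by
  unfold en
  rw [dif_pos h]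
  exact ((Q.equivFinOfCardEq h).symm c).2

lemma en_inj {k : ℕ} {Q : Finset (Finset V)} (h : Q.card = k) {c c' : Fin k}
    (he : en k Q c = en k Q c') : c = c' := by
  unfold en at he
  rw [dif_pos h, dif_pos h] at he
  exact (Q.equivFinOfCardEq h).symm.injective (Subtype.ext he)

lemma en_surj {k : ℕ} {Q : Finset (Finset V)} (h : Q.card = k) {P : Finset V} (hP : P ∈ Q) :
    ∃ c : Fin k, en k Q c = P := by
  refine ⟨Q.equivFinOfCardEq h ⟨P, hP⟩, ?_⟩
  unfold en
  rw [dif_pos h, Equiv.symm_apply_apply]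

/-- the value of the ground state number `c` at `x` is `1` -/
def Vl (k : ℕ) (c : Fin k) (x : V) : Set (E → ℝ) :=
  ⋃ r : ℕ, ⋃ Q : Finset (Finset V), AQ k r Q ∩
    {J : E → ℝ | ∃ ρ, GA J ρ ∧ (ρ 0 = 1 ∧ ph r ρ = en k Q c ∧ ρ x = 1)}

lemma Vl_meas (k : ℕ) (c : Fin k) (x : V) : MeasurableSet (Vl k c x) := by
  unfold Vl
  refine MeasurableSet.iUnion fun r => MeasurableSet.iUnion fun Q => (AQ_meas k r Q).inter ?_
  refine hit_meas (bx (0 : V) r ∪ {0, x}) _ fun α α' h => ?_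
  rintro ⟨h2, h3, h4⟩
  refine ⟨?_, ?_, ?_⟩
  · rw [← h 0 (Finset.mem_union_right _ (by simp))]
    exact h2
  · rw [← ph_dep fun y hy => h y (Finset.mem_union_left _ hy)]
    exact h3
  · rw [← h x (Finset.mem_union_right _ (by simp))]
    exact h4

open Classical in
/-- the ground state number `c` -/
noncomputable def gn (k : ℕ) (c : Fin k) (J : E → ℝ) (x : V) : ℝ := if J ∈ Vl k c x then 1 else -1

lemma gn_meas (k : ℕ) (c : Fin k) : Measurable (gn k c) :=
  measurable_pi_lambda _ fun x => Measurable.ite (Vl_meas k c x) measurable_const measurable_const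

/-- a box in which the patterns are different -/
lemma exists_inj (hf : (GZ J).Finite) : ∃ r : ℕ, Set.InjOn (ph r) (GZ J) := by
  classical
  have h1 : ∀ p : (V → ℝ) × (V → ℝ), ∃ y : V, p.1 ≠ p.2 → p.1 y ≠ p.2 y := by
    intro p
    by_cases h : p.1 = p.2
    · exact ⟨0, fun h' => absurd h h'⟩
    · obtain ⟨y, hy⟩ := Function.ne_iff.1 h
      exact ⟨y, fun _ => hy⟩
  choose y hy using h1
  refine ⟨(hf.toFinset ×ˢ hf.toFinset).sup fun p => nrm (y p), fun ρ hρ ρ' hρ' h => ?_⟩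
  by_contra hne
  refine hy (ρ, ρ') hne (ph_eq (hρ.1 0).1 (hρ'.1 0).1 h ?_)
  rw [mem_bx, sub_zero]
  exact Finset.le_sup (f := fun p : (V → ℝ) × (V → ℝ) => nrm (y p))
    (Finset.mem_product.2 ⟨hf.mem_toFinset.2 hρ, hf.mem_toFinset.2 hρ'⟩)

/-- **The enumeration.** -/
lemma gn_spec {k : ℕ} (hk : 0 < k) (hJ : (GZ J).ncard = k) :
    (∀ c, gn k c J ∈ GZ J) ∧ (∀ c c', gn k c J = gn k c' J → c = c') ∧
      ∀ ρ ∈ GZ J, ∃ c, gn k c J = ρ := by
  classical
  have hf : (GZ J).Finite := Set.finite_of_ncard_pos (by omega)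
  -- the images are finite sets
  have hQ : ∀ r, ∃ Q : Finset (Finset V), ph r '' GZ J = (Q : Set (Finset V)) := fun r =>
    ⟨(hf.image (ph r)).toFinset, by rw [Set.Finite.coe_toFinset]⟩
  have hcard : ∀ r (Q : Finset (Finset V)), ph r '' GZ J = (Q : Set (Finset V)) →
      (Q.card = k ↔ Set.InjOn (ph r) (GZ J)) := by
    intro r Q h
    rw [← Set.ncard_image_iff hf, h, Set.ncard_coe_finset, hJ]
  have hex : ∃ r, Set.InjOn (ph r) (GZ J) := exists_inj hf
  set r := Nat.find hex with hr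
  have hinj : Set.InjOn (ph r) (GZ J) := Nat.find_spec hex
  obtain ⟨Q, hQr⟩ := hQ r
  have hQk : Q.card = k := (hcard r Q hQr).2 hinj
  have hA : J ∈ AQ k r Q := by
    refine ⟨hQr, hQk, fun r' hr' Q' hQ' h => ?_⟩
    exact Nat.find_min hex hr' ((hcard r' Q' hQ').1 h)
  have huni : ∀ r' Q', J ∈ AQ k r' Q' → r' = r ∧ Q' = Q := by
    intro r' Q' h
    have h1 : r' = r := by
      rcases lt_trichotomy r' r with h2 | h2 | h2
      · exact absurd h.2.1 (hA.2.2 r' h2 Q' h.1)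
      · exact h2
      · exact absurd hQk (h.2.2 r h2 Q hQr)
    refine ⟨h1, ?_⟩
    subst h1
    have h3 := h.1
    rw [hA.1] at h3
    exact (Finset.coe_injective h3).symm
  have hc : ∀ c : Fin k, ∃ ρ ∈ GZ J, ph r ρ = en k Q c := by
    intro c
    have h1 : en k Q c ∈ ph r '' GZ J := by
      rw [hQr]
      exact Finset.mem_coe.2 (en_mem hQk c)
    obtain ⟨ρ, h2, h3⟩ := h1
    exact ⟨ρ, h2, h3⟩
  have hval : ∀ c : Fin k, ∀ ρ ∈ GZ J, ph r ρ = en k Q c → gn k c J = ρ := by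
    intro c ρ hρ hph
    funext x
    have h1 : J ∈ Vl k c x ↔ ρ x = 1 := by
      unfold Vl
      simp only [Set.mem_iUnion, Set.mem_inter_iff, Set.mem_ofPred_eq]
      constructor
      · rintro ⟨r', Q', h1, ρ', h2, h3, h4, h5⟩
        obtain ⟨rfl, rfl⟩ := huni r' Q' h1
        have h6 : ρ' = ρ := hinj ⟨h2, h3⟩ hρ (h4.trans hph.symm)
        rw [← h6]
        exact h5
      · intro h
        exact ⟨r, Q, hA, ρ, hρ.1, hρ.2, hph, h⟩
    unfold gn
    by_cases h : ρ x = 1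
    · rw [if_pos (h1.2 h), h]
    · rw [if_neg fun h' => h (h1.1 h')]
      exact (((hρ.1 0).1 x).resolve_left h).symm
  refine ⟨fun c => ?_, fun c c' h => ?_, fun ρ hρ => ?_⟩
  · obtain ⟨ρ, h1, h2⟩ := hc c
    rw [hval c ρ h1 h2]
    exact h1
  · obtain ⟨ρ, h1, h2⟩ := hc c
    obtain ⟨ρ', h1', h2'⟩ := hc c'
    rw [hval c ρ h1 h2, hval c' ρ' h1' h2'] at h
    refine en_inj hQk ?_
    rw [← h2, ← h2', h]
  · have h1 : ph r ρ ∈ (Q : Set (Finset V)) := by
      rw [← hQr]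
      exact ⟨ρ, hρ, rfl⟩
    obtain ⟨c, hc'⟩ := en_surj hQk (Finset.mem_coe.1 h1)
    exact ⟨c, hval c ρ hρ hc'.symm⟩

end Pool.Agent.Helper24.FN
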