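import Pool.Agent.Helper24.FN.C

/-!
# Energy barriers: translations and measurability
-/

set_option autoImplicit false
set_option linter.unusedSectionVars false

open MeasureTheory Measure Filter Topology

namespace Pool.Agent.Helper24.FN

open Pool.Agent.K3h93.EA Pool.Agent.K3h93.EF Pool.Agent.Helper24.EA
open Pool.Agent.R239.EA (dC nx u GI Gn bx tb Lw Inf spin GA GA_iff GI_congr GI_meas spin_pm dC_finite
  eq_empty_of_dC energy bx_sub nrm_zero mem_bx nrm congruent not_congruent edge_iff)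

open Classical in
/-- the spins in `A` are flipped -/
noncomputable def flp (A : Finset V) (σ : V → ℝ) : V → ℝ := fun x => if x ∈ A then -σ x else σ x

variable {J : E → ℝ} {σ ρ : V → ℝ} {A : Finset V} {q : ℝ}

lemma flp_spin (h : Spin σ) : Spin (flp A σ) := by
  intro x
  unfold flp
  split_ifs
  · exact h.neg x
  · exact h x

lemma flp_sim : Sim Set.univ σ (flp A σ) := by
  refine ⟨A.finite_toSet.subset fun x hx => ?_, fun x _ => Set.mem_univ x⟩
  by_contra h
  apply hx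
  unfold flp
  rw [if_neg fun h' => h (Finset.mem_coe.2 h')]

lemma eq_flp (hσ : Spin σ) {α : V → ℝ} (hα : Spin α) (h : Sim Set.univ σ α) :
    ∃ A : Finset V, α = flp A σ := by
  refine ⟨h.1.toFinset, funext fun x => ?_⟩
  unfold flp
  by_cases hx : α x = σ x
  · rw [if_neg fun h' => h.1.mem_toFinset.1 h' hx, hx]
  · rw [if_pos (h.1.mem_toFinset.2 hx)]
    rcases hα x with h3 | h3 <;> rcases hσ x with h4 | h4 <;> rw [h3, h4] at hx ⊢ <;>
      first | (exact absurd rfl hx) | norm_num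

lemma flp_neg (A : Finset V) (σ : V → ℝ) : flp A (-σ) = -flp A σ := by
  funext x
  unfold flp
  simp only [Pi.neg_apply]
  split_ifs <;> rfl

/-- the barrier is at most `q` -/
def Br (J : E → ℝ) (q : ℝ) (σ ρ : V → ℝ) : Prop :=
  ∀ W : Finset E, ∃ A : Finset V, (∀ e ∈ W, bp (flp A σ) e = bp ρ e) ∧ WD J σ (flp A σ) ≤ q

lemma Br.mono {q' : ℝ} (h : Br J q σ ρ) (hq : q ≤ q') : Br J q' σ ρ := fun W => by
  obtain ⟨A, h1, h2⟩ := h W
  exact ⟨A, h1, h2.trans hq⟩

lemma rc_br (hσ : Spin σ) (h : Rc J σ ρ) : ∃ n : ℕ, Br J n σ ρ := by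
  obtain ⟨C, hC⟩ := h
  obtain ⟨n, hn⟩ := exists_nat_ge C
  refine ⟨n, fun W => ?_⟩
  obtain ⟨α, hα, hs, hb, hc⟩ := hC W
  obtain ⟨A, rfl⟩ := eq_flp hσ hα hs
  exact ⟨A, hb, hc.trans hn⟩

lemma Br.nonneg (hg : GS Set.univ J σ) (h : Br J q σ ρ) : 0 ≤ q := by
  obtain ⟨A, -, h2⟩ := h ∅
  exact (hg.2 _ (flp_spin hg.1) flp_sim).trans h2

lemma Br.neg_left (h : Br J q σ ρ) : Br J q (-σ) ρ := fun W => by
  obtain ⟨A, h1, h2⟩ := h W
  refine ⟨A, fun e he => ?_, ?_⟩
  · rw [flp_neg, bp_neg, h1 e he]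
  · rwa [flp_neg, WD_neg_left, WD_neg_right]

lemma Br.congr_right {ρ' : V → ℝ} (h : Br J q σ ρ) (he : ∀ e, bp ρ' e = bp ρ e) : Br J q σ ρ' :=
  fun W => by
    obtain ⟨A, h1, h2⟩ := h W
    exact ⟨A, fun e h => by rw [h1 e h, he], h2⟩

lemma Br.neg_right (h : Br J q σ ρ) : Br J q σ (-ρ) := h.congr_right fun e => bp_neg _ e

/-! ### Translations -/

/-- the translated configuration -/
def sT (a : V) (σ : V → ℝ) : V → ℝ := fun x => σ (x + a)

lemma sT_spin {a : V} (h : Spin σ) : Spin (sT a σ) := fun x => h (x + a)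

lemma sT_bp (a : V) (σ : V → ℝ) (e : E) : bp (sT a σ) e = bp σ (st a e) := bp_shift a σ e

lemma sT_sT (a : V) (σ : V → ℝ) : sT a (sT (-a) σ) = σ := by
  funext x
  unfold sT
  congr 1
  abel

lemma sT_sT' (a : V) (σ : V → ℝ) : sT (-a) (sT a σ) = σ := by
  funext x
  unfold sT
  congr 1
  abel

/-- the translation of the bonds -/
def stE (a : V) : E ≃ E where
  toFun := st a
  invFun := st (-a)
  left_inv e := by rw [st_st, neg_add_cancel]; unfold st; simp
  right_inv e := by rw [st_st, add_neg_cancel]; unfold st; simp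

lemma WD_sh (a : V) (J : E → ℝ) (σ ρ : V → ℝ) : WD (sh a J) (sT a σ) (sT a ρ) = WD J σ ρ := by
  unfold WD
  rw [← finsum_comp_equiv (stE a) (f := fun e => J e * (bp σ e - bp ρ e))]
  refine finsum_congr fun e => ?_
  rw [sT_bp, sT_bp]
  rfl

lemma GA.sh (h : GA J σ) (a : V) : GA (sh a J) (sT a σ) := by
  rw [ga_iff] at h ⊢
  refine ⟨sT_spin h.1, fun β hβ hfin hne => ?_⟩
  have h1 : WD (K3h93.EA.sh a J) (sT a σ) β = WD J σ (sT (-a) β) := by
    conv_lhs => rw [← sT_sT a β]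
    exact WD_sh a J σ _
  rw [h1]
  refine h.2 _ (sT_spin hβ) ?_ fun he => hne ?_
  · have h2 : {x | sT (-a) β x ≠ σ x} ⊆ (fun x => x + a) '' {x | β x ≠ sT a σ x} := by
      intro x hx
      refine ⟨x + -a, ?_, by simp only; abel⟩
      intro h3
      apply hx
      have h4 : sT a σ (x + -a) = σ x := by
        unfold sT
        congr 1
        abel
      rw [h4] at h3
      exact h3
    exact (hfin.image _).subset h2
  · rw [← he, sT_sT]

lemma Br.sh (h : Br J q σ ρ) (a : V) : Br (K3h93.EA.sh a J) q (sT a σ) (sT a ρ) := by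
  classical
  intro W
  obtain ⟨A, h1, h2⟩ := h (W.image (st a))
  have h3 : flp (A.image fun x => x - a) (sT a σ) = sT a (flp A σ) := by
    funext x
    unfold flp sT
    have h4 : x ∈ A.image (fun x => x - a) ↔ x + a ∈ A := by
      rw [Finset.mem_image]
      constructor
      · rintro ⟨y, hy, rfl⟩
        simpa using hy
      · intro hx
        exact ⟨x + a, hx, by simp⟩
    simp only [h4]
  refine ⟨A.image fun x => x - a, fun e he => ?_, ?_⟩
  · rw [h3, sT_bp, sT_bp]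
    exact h1 _ (Finset.mem_image_of_mem _ he)
  · rw [h3, WD_sh]
    exact h2

/-- there is a pair with barrier at most `q` -/
def Sem (q : ℝ) (J : E → ℝ) : Prop :=
  ∃ σ ρ, GA J σ ∧ GA J ρ ∧ ρ ≠ σ ∧ ρ ≠ -σ ∧ Br J q σ ρ

lemma Sem.sh (h : Sem q J) (a : V) : Sem q (K3h93.EA.sh a J) := by
  obtain ⟨σ, ρ, h1, h2, h3, h4, h5⟩ := h
  refine ⟨sT a σ, sT a ρ, GA.sh h1 a, GA.sh h2 a, fun he => h3 ?_, fun he => h4 ?_, h5.sh a⟩
  · rw [← sT_sT' a ρ, he, sT_sT']
  · rw [← sT_sT' a ρ, he]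
    have : -sT a σ = sT a (-σ) := rfl
    rw [this, sT_sT']

lemma Sem_iff (a : V) : Sem q (K3h93.EA.sh a J) ↔ Sem q J := by
  refine ⟨fun h => ?_, fun h => h.sh a⟩
  have h1 := h.sh (-a)
  rwa [sh_sh, neg_add_cancel, sh_zero] at h1

/-! ### Measurability -/

/-- the event for the enumerated ground states -/
def MQ (k : ℕ) (q : ℝ) : Set (E → ℝ) :=
  {J | ∃ c c' : Fin k, c ≠ c' ∧ Br J q (gn k c J) (gn k c' J)}

/-- the same for a pair which differs at the bond `e` -/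
def CQ (k : ℕ) (e : E) (q : ℕ → ℝ) : Set (E → ℝ) :=
  {J | ∃ c c' : Fin k, bp (gn k c J) e ≠ bp (gn k c' J) e ∧
    ∀ n, Br J (q n) (gn k c J) (gn k c' J)}

lemma gn_bp_meas (k : ℕ) (c : Fin k) (e : E) : Measurable fun J => bp (gn k c J) e :=
  bpm (gn_meas k c) e

lemma flp_bp_meas (k : ℕ) (c : Fin k) (A : Finset V) (e : E) :
    Measurable fun J => bp (flp A (gn k c J)) e := by
  have h1 : ∀ x, Measurable fun J => flp A (gn k c J) x := by
    intro x
    unfold flp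
    split_ifs
    · exact ((measurable_pi_apply x).comp (gn_meas k c)).neg
    · exact (measurable_pi_apply x).comp (gn_meas k c)
  unfold bp
  exact (h1 _).mul (h1 _)

lemma WD_flp (J : E → ℝ) (A : Finset V) (σ : V → ℝ) :
    WD J σ (flp A σ) = ∑ e ∈ NB A, J e * (bp σ e - bp (flp A σ) e) := by
  unfold WD
  refine finsum_F fun e he => ?_
  rw [mem_NB, not_or] at he
  unfold bp flp
  rw [if_neg he.1, if_neg he.2, sub_self, mul_zero]

lemma br_meas (k : ℕ) (c c' : Fin k) (q : ℝ) :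
    MeasurableSet {J : E → ℝ | Br J q (gn k c J) (gn k c' J)} := by
  have h1 : {J : E → ℝ | Br J q (gn k c J) (gn k c' J)} =
      ⋂ W : Finset E, ⋃ A : Finset V,
        (⋂ e ∈ W, {J : E → ℝ | bp (flp A (gn k c J)) e = bp (gn k c' J) e}) ∩
          {J : E → ℝ | ∑ e ∈ NB A, J e * (bp (gn k c J) e - bp (flp A (gn k c J)) e) ≤ q} := by
    ext J
    unfold Br
    simp only [Set.mem_ofPred_eq, Set.mem_iInter, Set.mem_iUnion, Set.mem_inter_iff, WD_flp]
  rw [h1]
  refine MeasurableSet.iInter fun W => MeasurableSet.iUnion fun A => MeasurableSet.inter ?_ ?_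
  · exact Finset.measurableSet_biInter _ fun e _ =>
      measurableSet_eq_fun (flp_bp_meas k c A e) (gn_bp_meas k c' e)
  · refine measurableSet_le (Finset.measurable_sum _ fun e _ => ?_) measurable_const
    exact (measurable_pi_apply e).mul ((gn_bp_meas k c e).sub (flp_bp_meas k c A e))

lemma MQ_meas (k : ℕ) (q : ℝ) : MeasurableSet (MQ k q) := by
  have h1 : MQ k q = ⋃ c : Fin k, ⋃ c' : Fin k, {_J | c ≠ c'} ∩
      {J : E → ℝ | Br J q (gn k c J) (gn k c' J)} := by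
    ext J
    unfold MQ
    simp only [Set.mem_ofPred_eq, Set.mem_iUnion, Set.mem_inter_iff]
  rw [h1]
  exact MeasurableSet.iUnion fun c => MeasurableSet.iUnion fun c' =>
    (MeasurableSet.const _).inter (br_meas k c c' q)

lemma CQ_meas (k : ℕ) (e : E) (q : ℕ → ℝ) : MeasurableSet (CQ k e q) := by
  have h1 : CQ k e q = ⋃ c : Fin k, ⋃ c' : Fin k,
      {J : E → ℝ | bp (gn k c J) e = bp (gn k c' J) e}ᶜ ∩
      ⋂ n : ℕ, {J : E → ℝ | Br J (q n) (gn k c J) (gn k c' J)} := by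
    ext J
    unfold CQ
    simp only [Set.mem_ofPred_eq, Set.mem_iUnion, Set.mem_inter_iff, Set.mem_iInter,
      Set.mem_compl_iff, ne_eq]
  rw [h1]
  exact MeasurableSet.iUnion fun c => MeasurableSet.iUnion fun c' =>
    (measurableSet_eq_fun (gn_bp_meas k c e) (gn_bp_meas k c' e)).compl.inter
      (MeasurableSet.iInter fun n => br_meas k c c' (q n))

lemma ne_of_GZ {σ ρ : V → ℝ} (h : σ ∈ GZ J) (h' : ρ ∈ GZ J) (hne : ρ ≠ σ) : ρ ≠ -σ := by
  intro he
  have h1 := h'.2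
  rw [he, Pi.neg_apply, h.2] at h1
  norm_num at h1

/-- the normalisation of a ground state -/
lemma GA.nz (h : GA J σ) : ∃ σ', σ' ∈ GZ J ∧ (σ' = σ ∨ σ' = -σ) := by
  rcases (h 0).1 0 with h1 | h1
  · exact ⟨σ, ⟨h, h1⟩, Or.inl rfl⟩
  · refine ⟨-σ, ⟨?_, by rw [Pi.neg_apply, h1, neg_neg]⟩, Or.inr rfl⟩
    rw [ga_iff] at h ⊢
    refine ⟨h.1.neg, fun β hβ hfin hne => ?_⟩
    have h2 := h.2 (-β) hβ.neg (hfin.subset fun x hx => ?_) fun he => hne ?_
    · rw [WD_neg_left]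
      rwa [WD_neg_right] at h2
    · intro h3
      apply hx
      rw [Pi.neg_apply, h3, Pi.neg_apply, neg_neg]
    · rw [← he, neg_neg]

lemma MQ_iff {k : ℕ} (hk : 0 < k) (hJ : (GZ J).ncard = k) : J ∈ MQ k q ↔ Sem q J := by
  obtain ⟨h1, h2, h3⟩ := gn_spec hk hJ
  constructor
  · rintro ⟨c, c', hne, hb⟩
    have h4 : gn k c' J ≠ gn k c J := fun he => hne (h2 c' c he).symm
    exact ⟨_, _, (h1 c).1, (h1 c').1, h4, ne_of_GZ (h1 c) (h1 c') h4, hb⟩
  · rintro ⟨σ, ρ, hσ, hρ, hne, hne', hb⟩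
    obtain ⟨σ', hσ', hs⟩ := GA.nz hσ
    obtain ⟨ρ', hρ', hr⟩ := GA.nz hρ
    obtain ⟨c, hc⟩ := h3 σ' hσ'
    obtain ⟨c', hc'⟩ := h3 ρ' hρ'
    refine ⟨c, c', fun he => ?_, ?_⟩
    · have h4 : σ' = ρ' := by rw [← hc, ← hc', he]
      rcases hs with rfl | rfl <;> rcases hr with rfl | rfl
      · exact hne h4.symm
      · exact hne' (by rw [h4, neg_neg])
      · exact hne' h4.symm
      · exact hne (neg_injective h4).symm
    · rw [hc, hc']
      have h5 : Br J q σ' ρ := by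
        rcases hs with rfl | rfl
        · exact hb
        · exact hb.neg_left
      rcases hr with rfl | rfl
      · exact h5
      · exact h5.neg_right

end Pool.Agent.Helper24.FN
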