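import Pool.Agent.Helper24.FN.D

/-!
# Infinite barriers between finitely many ground states
-/

set_option autoImplicit false
set_option linter.unusedSectionVars false

open MeasureTheory Measure Filter Topology

namespace Pool.Agent.Helper24.FN

open Pool.Agent.K3h93.EA Pool.Agent.K3h93.EF Pool.Agent.Helper24.EA
open Pool.Agent.R239.EA (dC nx u GI Gn bx tb Lw Inf spin GA GA_iff GI_congr GI_meas spin_pm dC_finite
  eq_empty_of_dC energy bx_sub nrm_zero mem_bx nrm congruent not_congruent edge_iff gn_ae)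

variable {J : E → ℝ} {σ ρ : V → ℝ} {q : ℝ} {e : E} {t t' : ℝ}

lemma WD_upd {α : V → ℝ} (h : Sim Set.univ σ α) :
    WD (upd e J t') σ α = WD (upd e J t) σ α + (t' - t) * (bp σ e - bp α e) := by
  have h1 := WD_change (J := upd e J t) (J' := upd e J t') (σ := σ) (α := α) (F := {e})
    (fun f hf => by
      have hf' : f ≠ e := fun h => hf (Finset.mem_singleton.2 h)
      rw [upd_ne hf', upd_ne hf']) h
  rw [h1, Finset.sum_singleton, upd_self, upd_self]

lemma bp_le_one {α : V → ℝ} (h : Spin α) (e : E) : bp α e ≤ 1 ∧ -1 ≤ bp α e := by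
  rcases h.bp_cases e with h | h <;> rw [h] <;> norm_num

lemma GA_plus (h : GA (upd e J t) ρ) (hb : bp ρ e = 1) (ht : t ≤ t') : GA (upd e J t') ρ := by
  rw [ga_iff] at h ⊢
  refine ⟨h.1, fun β hβ hfin hne => ?_⟩
  rw [WD_upd (t := t) ⟨hfin, fun x _ => Set.mem_univ x⟩, hb]
  have h1 := h.2 β hβ hfin hne
  have h2 := (bp_le_one hβ e).1
  nlinarith

lemma GA_minus (h : GA (upd e J t') ρ) (hb : bp ρ e = -1) (ht : t ≤ t') : GA (upd e J t) ρ := by
  rw [ga_iff] at h ⊢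
  refine ⟨h.1, fun β hβ hfin hne => ?_⟩
  rw [WD_upd (t := t') ⟨hfin, fun x _ => Set.mem_univ x⟩, hb]
  have h1 := h.2 β hβ hfin hne
  have h2 := (bp_le_one hβ e).2
  nlinarith

/-- the ground states with `+` at `e` -/
def Gp (e : E) (J : E → ℝ) (t : ℝ) : Set (V → ℝ) := {ρ | ρ ∈ GZ (upd e J t) ∧ bp ρ e = 1}

lemma G_const {k : ℕ} (hk : 0 < k) (ht : t ≤ t') (h1 : (GZ (upd e J t)).ncard = k)
    (h2 : (GZ (upd e J t')).ncard = k) (h : (Gp e J t).ncard = (Gp e J t').ncard) :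
    GZ (upd e J t) = GZ (upd e J t') := by
  have f1 : (GZ (upd e J t)).Finite := Set.finite_of_ncard_pos (by omega)
  have f2 : (GZ (upd e J t')).Finite := Set.finite_of_ncard_pos (by omega)
  have p1 : (Gp e J t) ⊆ GZ (upd e J t) := fun ρ hρ => hρ.1
  have p2 : (Gp e J t') ⊆ GZ (upd e J t') := fun ρ hρ => hρ.1
  have e1 : Gp e J t = Gp e J t' := by
    refine Set.eq_of_subset_of_ncard_le (fun ρ hρ => ⟨⟨GA_plus hρ.1.1 hρ.2 ht, hρ.1.2⟩, hρ.2⟩)
      h.ge (f2.subset p2)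
  have e2 : GZ (upd e J t') \ Gp e J t' = GZ (upd e J t) \ Gp e J t := by
    refine Set.eq_of_subset_of_ncard_le (fun ρ hρ => ?_) ?_ (f1.subset Set.sdiff_subset)
    · have h3 : bp ρ e = -1 := ((hρ.1.1 0).1 |> fun h : Spin ρ => h.bp_cases e).resolve_left
        fun h4 => hρ.2 ⟨hρ.1, h4⟩
      refine ⟨⟨GA_minus hρ.1.1 h3 ht, hρ.1.2⟩, fun h4 => ?_⟩
      rw [h4.2] at h3
      norm_num at h3
    · rw [Set.ncard_sdiff p1 (f1.subset p1), Set.ncard_sdiff p2 (f2.subset p2), h1, h2, h]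
  rw [← Set.sdiff_union_of_subset p1, ← Set.sdiff_union_of_subset p2, e2, e1]

/-- a pair which differs at `e` with barrier `q0` -/
def Pr (e : E) (J : E → ℝ) (q0 t : ℝ) (σ ρ : V → ℝ) : Prop :=
  σ ∈ GZ (upd e J t) ∧ ρ ∈ GZ (upd e J t) ∧ bp σ e ≠ bp ρ e ∧
    (∀ n : ℕ, Br (upd e J t) (q0 + 1 / (n + 1)) σ ρ) ∧
    ∀ n : ℕ, ¬ Sem (q0 - 1 / (n + 1)) (upd e J t)

lemma Pr_lt {q0 : ℝ} (h : Pr e J q0 t σ ρ) (h' : Pr e J q0 t' σ ρ) (ht : t < t') : False := by
  obtain ⟨a1, a2, a3, a4, a5⟩ := h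
  obtain ⟨b1, b2, b3, b4, b5⟩ := h'
  have hsp : Spin σ := (a1.1 0).1
  have hsp' : Spin ρ := (a2.1 0).1
  have hne : ρ ≠ σ := fun he => a3 (by rw [he])
  have hne' : ρ ≠ -σ := fun he => a3 (by rw [he, bp_neg])
  obtain ⟨n, hn⟩ := exists_nat_one_div_lt (show 0 < t' - t by linarith)
  rcases hsp.bp_cases e with hb | hb
  · -- from `t'` to `t`
    have hb' : bp ρ e = -1 := (hsp'.bp_cases e).resolve_left fun h => a3 (by rw [hb, h])
    refine a5 n ⟨σ, ρ, a1.1, a2.1, hne, hne', fun W => ?_⟩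
    obtain ⟨A, hA, hw⟩ := b4 n (insert e W)
    refine ⟨A, fun f hf => hA f (Finset.mem_insert_of_mem hf), ?_⟩
    have h1 := WD_upd (J := J) (e := e) (t := t) (t' := t') (flp_sim (σ := σ) (A := A))
    rw [hA e (Finset.mem_insert_self e W), hb, hb'] at h1
    linarith
  · have hb' : bp ρ e = 1 := (hsp'.bp_cases e).resolve_right fun h => a3 (by rw [hb, h])
    refine b5 n ⟨σ, ρ, b1.1, b2.1, hne, hne', fun W => ?_⟩
    obtain ⟨A, hA, hw⟩ := a4 n (insert e W)
    refine ⟨A, fun f hf => hA f (Finset.mem_insert_of_mem hf), ?_⟩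
    have h1 := WD_upd (J := J) (e := e) (t := t) (t' := t') (flp_sim (σ := σ) (A := A))
    rw [hA e (Finset.mem_insert_self e W), hb, hb'] at h1
    linarith

lemma Pr_sub (q0 : ℝ) (σ ρ : V → ℝ) : {t | Pr e J q0 t σ ρ}.Subsingleton := by
  intro t h t' h'
  rcases lt_trichotomy t t' with h1 | h1 | h1
  · exact (Pr_lt h h' h1).elim
  · exact h1
  · exact (Pr_lt h' h h1).elim

/-- for fixed other couplings there are only finitely many exceptional values of a coupling -/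
lemma Pr_fin {k : ℕ} (hk : 0 < k) (J : E → ℝ) (e : E) (q0 : ℝ) :
    {t | (GZ (upd e J t)).ncard = k ∧ ∃ σ ρ, Pr e J q0 t σ ρ}.Finite := by
  set N := {t | (GZ (upd e J t)).ncard = k ∧ ∃ σ ρ, Pr e J q0 t σ ρ} with hN
  have h1 : N ⊆ ⋃ j ∈ Set.Iic k, {t | t ∈ N ∧ (Gp e J t).ncard = j} := by
    intro t ht
    rw [Set.mem_iUnion₂]
    refine ⟨(Gp e J t).ncard, ?_, ht, rfl⟩
    have f1 : (GZ (upd e J t)).Finite := Set.finite_of_ncard_pos (by rw [ht.1]; exact hk)
    have := Set.ncard_le_ncard (show Gp e J t ⊆ GZ (upd e J t) from fun ρ hρ => hρ.1) f1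
    rw [ht.1] at this
    exact this
  refine (Set.Finite.biUnion (Set.finite_Iic k) fun j _ => ?_).subset h1
  by_cases hne : {t | t ∈ N ∧ (Gp e J t).ncard = j}.Nonempty
  · obtain ⟨t0, ht0, hj0⟩ := hne
    have f0 : (GZ (upd e J t0)).Finite := Set.finite_of_ncard_pos (by rw [ht0.1]; exact hk)
    have h2 : {t | t ∈ N ∧ (Gp e J t).ncard = j} ⊆
        ⋃ σ ∈ GZ (upd e J t0), ⋃ ρ ∈ GZ (upd e J t0), {t | Pr e J q0 t σ ρ} := by
      rintro t ⟨ht, hj⟩
      obtain ⟨σ, ρ, hp⟩ := ht.2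
      have hG : GZ (upd e J t) = GZ (upd e J t0) := by
        rcases le_total t t0 with h3 | h3
        · exact G_const hk h3 ht.1 ht0.1 (hj.trans hj0.symm)
        · exact (G_const hk h3 ht0.1 ht.1 (hj0.trans hj.symm)).symm
      simp only [Set.mem_iUnion]
      exact ⟨σ, hG ▸ hp.1, ρ, hG ▸ hp.2.1, hp⟩
    refine (f0.biUnion fun σ _ => f0.biUnion fun ρ _ => ?_).subset h2
    exact (Pr_sub q0 σ ρ).finite
  · rw [Set.not_nonempty_iff_eq_empty] at hne
    rw [hne]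
    exact Set.finite_empty

variable {μ : Measure ℝ} [IsProbabilityMeasure μ]

lemma erg' {M : Set (E → ℝ)} (hM : MeasurableSet M)
    (hinv : ∀ a, ∀ᵐ J ∂(infinitePi fun _ : E => μ), sh a J ∈ M ↔ J ∈ M) :
    (infinitePi fun _ : E => μ).real M = 0 ∨ (infinitePi fun _ : E => μ).real M = 1 := by
  set U : Set (E → ℝ) := ⋂ a : V, sh a ⁻¹' M with hU
  have hUm : MeasurableSet U := MeasurableSet.iInter fun a => measurable_sh a hM
  have hUi : ∀ b, sh b ⁻¹' U = U := by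
    intro b
    ext J
    simp only [hU, Set.mem_preimage, Set.mem_iInter]
    constructor
    · intro h a
      have h1 := h (a - b)
      rwa [sh_sh, sub_add_cancel] at h1
    · intro h a
      rw [sh_sh]
      exact h (a + b)
  have hUe : U =ᵐ[infinitePi fun _ : E => μ] M := by
    filter_upwards [ae_all_iff.2 hinv] with J hJ
    refine eq_iff_iff.2 ?_
    show J ∈ U ↔ J ∈ M
    simp only [hU, Set.mem_preimage, Set.mem_iInter]
    constructor
    · intro h
      exact (hJ 0).1 (h 0)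
    · intro h a
      exact (hJ a).2 h
  rw [← measureReal_congr hUe]
  exact erg hUm hUi

lemma MQ_mono {k : ℕ} {q q' : ℝ} (h : q ≤ q') : MQ k q ⊆ MQ k q' := by
  rintro J ⟨c, c', h1, h2⟩
  exact ⟨c, c', h1, h2.mono h⟩

/-- **Infinite barriers.** -/
theorem inc_ae (hat : ∀ x, μ {x} = 0) {k : ℕ} (hk : 0 < k)
    (hN : ∀ᵐ J ∂(infinitePi fun _ : E => μ), (GZ J).ncard = k) :
    ∀ᵐ J ∂(infinitePi fun _ : E => μ), Inc J := by
  classical
  set P := infinitePi fun _ : E => μ with hP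
  have hgn : ∀ᵐ J ∂P, Gn J := gn_ae (d := 2) μ hat
  have hinv : ∀ q a, ∀ᵐ J ∂P, sh a J ∈ MQ k q ↔ J ∈ MQ k q := by
    intro q a
    have h1 : ∀ᵐ J ∂P, (GZ (sh a J)).ncard = k := (sh_law μ a).quasiMeasurePreserving.ae hN
    filter_upwards [hN, h1] with J h2 h3
    rw [MQ_iff hk h2, MQ_iff hk h3, Sem_iff]
  have h01 : ∀ q, P.real (MQ k q) = 0 ∨ P.real (MQ k q) = 1 := fun q =>
    erg' (MQ_meas k q) (hinv q)
  have hzero : ∀ q, P.real (MQ k q) = 0 → ∀ᵐ J ∂P, J ∉ MQ k q := by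
    intro q h
    rw [measureReal_eq_zero_iff] at h
    exact measure_eq_zero_iff_ae_notMem.1 h
  have hone : ∀ q, P.real (MQ k q) = 1 → ∀ᵐ J ∂P, J ∈ MQ k q := by
    intro q h
    have h1 : P (MQ k q) = 1 := by
      rw [← ENNReal.toReal_eq_one_iff]
      exact h
    exact (mem_ae_iff_prob_eq_one₀ (MQ_meas k q).nullMeasurableSet).2 h1
  by_cases hall : ∀ n : ℕ, P.real (MQ k n) = 0
  · filter_upwards [hN, hgn, ae_all_iff.2 fun n : ℕ => hzero n (hall n)] with J h1 h2 h3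
    intro σ ρ hσ hρ hr
    by_contra hc
    rw [not_or] at hc
    obtain ⟨n, hn⟩ := rc_br hσ.1 hr
    exact h3 n ((MQ_iff hk h1).2 ⟨σ, ρ, gs_ga h2 hσ, gs_ga h2 hρ, hc.1, hc.2, hn⟩)
  · exfalso
    push Not at hall
    obtain ⟨n0, hn0⟩ := hall
    set S : Set ℝ := {q | P.real (MQ k q) = 1} with hS
    have hS0 : (n0 : ℝ) ∈ S := (h01 n0).resolve_left hn0
    have hSb : ∀ q ∈ S, 0 ≤ q := by
      intro q hq
      obtain ⟨J, h1, h2⟩ := (hN.and (hone q hq)).exists
      obtain ⟨σ, ρ, a1, a2, a3, a4, a5⟩ := (MQ_iff hk h1).1 h2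
      exact a5.nonneg (ga_gs a1)
    have hbd : BddBelow S := ⟨0, fun q hq => hSb q hq⟩
    set q0 := sInf S with hq0
    have hup : ∀ n : ℕ, ∀ᵐ J ∂P, J ∈ MQ k (q0 + 1 / (n + 1)) := by
      intro n
      have hpos : (0 : ℝ) < 1 / ((n : ℝ) + 1) := by positivity
      obtain ⟨q, hq, hlt⟩ := exists_lt_of_csInf_lt ⟨_, hS0⟩
        (show sInf S < q0 + 1 / ((n : ℝ) + 1) by linarith)
      exact (hone q hq).mono fun J hJ => MQ_mono hlt.le hJ
    have hlow : ∀ n : ℕ, ∀ᵐ J ∂P, J ∉ MQ k (q0 - 1 / (n + 1)) := by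
      intro n
      have hpos : (0 : ℝ) < 1 / ((n : ℝ) + 1) := by positivity
      refine hzero _ ((h01 _).resolve_right fun h => ?_)
      have h1 : sInf S ≤ q0 - 1 / ((n : ℝ) + 1) := csInf_le hbd h
      linarith
    -- the pairs which differ at `e`
    have hC : ∀ e : E, P (CQ k e fun n : ℕ => q0 + 1 / ((n : ℝ) + 1)) = 0 := by
      intro e
      set C := CQ k e fun n : ℕ => q0 + 1 / ((n : ℝ) + 1) with hCdef
      have hCm : MeasurableSet C := CQ_meas k e _
      have h1 : ∀ᵐ J ∂P, (GZ J).ncard = k ∧ ∀ n : ℕ, J ∉ MQ k (q0 - 1 / (n + 1)) :=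
        hN.and (ae_all_iff.2 hlow)
      have h2 := (upd_law (μ := μ) e).quasiMeasurePreserving.ae h1
      have h3 := ae_ae_of_ae_prod h2
      have h4 : ∀ᵐ J ∂P, μ {t | upd e J t ∈ C} = 0 := by
        filter_upwards [h3] with J hJ
        have hfin := Pr_fin hk J e q0
        have h5 : μ {t | (GZ (upd e J t)).ncard = k ∧ ∃ σ ρ, Pr e J q0 t σ ρ} = 0 := by
          have : NullSingletonClass μ := ⟨hat⟩
          exact hfin.measure_zero μ
        have h6 : {t | upd e J t ∈ C} ≤ᵐ[μ]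
            {t | (GZ (upd e J t)).ncard = k ∧ ∃ σ ρ, Pr e J q0 t σ ρ} := by
          filter_upwards [hJ] with t ht hCt
          obtain ⟨c, c', hne, hbr⟩ := (show upd e J t ∈ C from hCt)
          obtain ⟨g1, g2, g3⟩ := gn_spec hk ht.1
          exact ⟨ht.1, _, _, g1 c, g1 c', hne, hbr, fun n hs => ht.2 n ((MQ_iff hk ht.1).2 hs)⟩
        exact measure_mono_null_ae h6 h5
      have h7 : (P.prod μ) ((fun q : (E → ℝ) × ℝ => upd e q.1 q.2) ⁻¹' C) = 0 := by
        rw [measure_prod_null ((upd_meas e) hCm)]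
        exact h4
      rw [(upd_law (μ := μ) e).measure_preimage hCm.nullMeasurableSet] at h7
      exact h7
    have hC' : ∀ᵐ J ∂P, ∀ e : E, J ∉ CQ k e fun n : ℕ => q0 + 1 / ((n : ℝ) + 1) :=
      ae_all_iff.2 fun e => measure_eq_zero_iff_ae_notMem.1 (hC e)
    obtain ⟨J, h1, h2, h3⟩ := (hN.and ((ae_all_iff.2 hup).and hC')).exists
    -- one pair for all `n`
    choose c hc using h2
    obtain ⟨c0, hc0⟩ := Finite.exists_infinite_fiber c
    choose c' hc' using hc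
    have : ∃ c1, (c ⁻¹' {c0} ∩ c' ⁻¹' {c1}).Infinite := by
      by_contra hcon
      push Not at hcon
      have h5 : (c ⁻¹' {c0}) ⊆ ⋃ c1 : Fin k, (c ⁻¹' {c0} ∩ c' ⁻¹' {c1}) := fun n hn => by
        rw [Set.mem_iUnion]
        exact ⟨c' n, hn, rfl⟩
      have h6 : (c ⁻¹' {c0}).Finite := (Set.finite_iUnion fun c1 => by
        have := hcon c1
        simpa using this).subset h5
      exact (Set.infinite_coe_iff.1 hc0) h6
    obtain ⟨c1, hc1⟩ := this
    have hall' : ∀ n : ℕ, Br J (q0 + 1 / ((n : ℝ) + 1)) (gn k c0 J) (gn k c1 J) := by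
      intro n
      obtain ⟨m, hm, hnm⟩ := hc1.exists_gt n
      have h5 := (hc' m).2
      rw [show c m = c0 from hm.1, show c' m = c1 from hm.2] at h5
      refine h5.mono ?_
      have h6 : (1 : ℝ) / (m + 1) ≤ 1 / (n + 1) := by
        apply one_div_le_one_div_of_le
        · positivity
        · have : (n : ℝ) ≤ m := by exact_mod_cast hnm.le
          linarith
      linarith
    obtain ⟨m, hm⟩ := hc1.nonempty
    have hne : c0 ≠ c1 := by
      have := (hc' m).1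
      rwa [show c m = c0 from hm.1, show c' m = c1 from hm.2] at this
    obtain ⟨g1, g2, g3⟩ := gn_spec hk h1
    have hgne : gn k c1 J ≠ gn k c0 J := fun he => hne (g2 _ _ he.symm)
    have hgne' := ne_of_GZ (g1 c0) (g1 c1) hgne
    have hs0 : Spin (gn k c0 J) := ((g1 c0).1 0).1
    have hs1 : Spin (gn k c1 J) := ((g1 c1).1 0).1
    have hex : ∃ e, bp (gn k c0 J) e ≠ bp (gn k c1 J) e := by
      by_contra hcon
      push Not at hcon
      have h5 : dC {x | gn k c0 J x ≠ gn k c1 J x} = ∅ := by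
        ext e
        rw [edge_iff hs0 hs1]
        simp only [Set.mem_empty_iff_false, iff_false, not_not]
        exact hcon e
      rcases congruent hs0 hs1 h5 with h6 | h6
      · exact hgne h6
      · exact hgne' h6
    obtain ⟨e, he⟩ := hex
    exact h3 e ⟨c0, c1, he, hall'⟩

end Pool.Agent.Helper24.FN
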