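import Pool.Agent.Helper24.FN.E
import Pool.Agent.Helper24.NZ.L

/-!
# The average over the ground states is the universal function
-/

set_option autoImplicit false
set_option linter.unusedSectionVars false

open MeasureTheory Measure Filter Topology

namespace Pool.Agent.Helper24.FN

open Pool.Agent.K3h93.EA Pool.Agent.Helper24.EA
open Pool.Agent.K3h93.EF hiding psi_eq psi_le psi_meas upper1 psi_le' step1 step2 step3 scale_est main_est main_abs
open Pool.Agent.R239.EA (dC nx u GI Gn bx tb Lw Inf spin GA GA_iff GI_congr GI_meas spin_pm dC_finite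
  eq_empty_of_dC energy bx_sub nrm_zero mem_bx nrm congruent not_congruent edge_iff gn_ae)

variable {μ : Measure ℝ} [IsProbabilityMeasure μ] {k : ℕ}

/-- good couplings -/
def Gd (k : ℕ) (J : E → ℝ) : Prop := (GZ J).ncard = k ∧ Gn J ∧ Inc J

lemma gd_ae (hat : ∀ x, μ {x} = 0) (hk : 0 < k)
    (hN : ∀ᵐ J ∂(infinitePi fun _ : E => μ), (GZ J).ncard = k) :
    ∀ᵐ J ∂(infinitePi fun _ : E => μ), Gd k J := by
  filter_upwards [hN, gn_ae (d := 2) μ hat, inc_ae hat hk hN] with J h1 h2 h3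
  exact ⟨h1, h2, h3⟩

lemma exists_ref (hat : ∀ x, μ {x} = 0) (hk : 0 < k)
    (hN : ∀ᵐ J ∂(infinitePi fun _ : E => μ), (GZ J).ncard = k) (L : ℕ) :
    ∃ K : E → ℝ, ∀ᵐ J ∂(infinitePi fun _ : E => μ), Gd k (patch (FB L : Finset E) J K) := by
  set P := infinitePi fun _ : E => μ with hP
  have h1 : ∀ᵐ p ∂(P.prod P), Gd k (patch (FB L : Finset E) p.1 p.2) :=
    (NZ.patch_law (μ := μ) (FB L : Finset E)).quasiMeasurePreserving.ae (gd_ae hat hk hN)
  have h2 : ∀ᵐ p ∂(P.prod P), Gd k (patch (FB L : Finset E) p.2 p.1) :=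
    (measurePreserving_swap (μ := P) (ν := P)).quasiMeasurePreserving.ae h1
  obtain ⟨K, hK⟩ := (ae_ae_of_ae_prod h2).exists
  exact ⟨K, hK⟩

/-- a bijection between the ground states for two couplings -/
lemma exists_perm (hk : 0 < k) {J : E → ℝ} (hJ : Gd k J) (τ : Fin k → V → ℝ)
    (h1 : ∀ c, GA J (τ c)) (h2 : ∀ c c', (∀ e, bp (τ c) e = bp (τ c') e) → c = c') :
    ∃ π : Fin k → Fin k, Function.Bijective π ∧ ∀ c, ∀ e, bp (gn k (π c) J) e = bp (τ c) e := by
  obtain ⟨g1, g2, g3⟩ := gn_spec hk hJ.1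
  have h3 : ∀ c, ∃ c', ∀ e, bp (gn k c' J) e = bp (τ c) e := by
    intro c
    obtain ⟨σ', hσ', hs⟩ := GA.nz (h1 c)
    obtain ⟨c', hc'⟩ := g3 σ' hσ'
    refine ⟨c', fun e => ?_⟩
    rw [hc']
    rcases hs with rfl | rfl
    · rfl
    · exact bp_neg _ e
  choose π hπ using h3
  refine ⟨π, Finite.injective_iff_bijective.1 fun c c' h => h2 c c' fun e => ?_, hπ⟩
  rw [← hπ c e, ← hπ c' e, h]

/-- the number of bonds -/
lemma sum_perm {J : E → ℝ} {τ : Fin k → V → ℝ} {π : Fin k → Fin k} (hπ : Function.Bijective π)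
    {e : E} (h : ∀ c, bp (gn k (π c) J) e = bp (τ c) e) :
    ∑ c, bp (τ c) e = ∑ c, bp (gn k c J) e := by
  rw [← hπ.sum_comp fun c => bp (gn k c J) e]
  exact Finset.sum_congr rfl fun c _ => (h c).symm

lemma bond_eq {σ ρ : V → ℝ} (hσ : Spin σ) (hρ : Spin ρ) (h : ∀ e, bp σ e = bp ρ e) :
    ρ = σ ∨ ρ = -σ := by
  refine congruent hσ hρ ?_
  ext e
  rw [edge_iff hσ hρ]
  simp only [Set.mem_empty_iff_false, iff_false, not_not]
  exact h e

/-- the ground states with spin `1` at the origin are determined by their bonds -/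
lemma gn_bond_inj (hk : 0 < k) {J : E → ℝ} (hJ : (GZ J).ncard = k) {c c' : Fin k}
    (h : ∀ e, bp (gn k c J) e = bp (gn k c' J) e) : c = c' := by
  obtain ⟨g1, g2, g3⟩ := gn_spec hk hJ
  rcases bond_eq ((g1 c).1 0).1 ((g1 c').1 0).1 h with h1 | h1
  · exact g2 c c' h1.symm
  · by_contra hne
    exact ne_of_GZ (g1 c) (g1 c') (fun he => hne (g2 c c' he.symm)) h1

/-- **The families of the classes.** -/
lemma fam {L : ℕ} (hk : 0 < k) {J K : E → ℝ} (hJ : Gd k J)
    (hJ' : Gd k (patch (FB L : Finset E) J K)) {s : Fin k → V → ℝ}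
    (hs : ∀ c, GSB L (wg L K (gn k c)) J (s c)) :
    ∃ π : Fin k → Fin k, Function.Bijective π ∧
      ∀ c, ∀ e ∈ FB L, bp (gn k (π c) J) e = bp (s c) e := by
  set J' := patch ((FB L : Finset E) : Set E) J K with hJ'def
  have hoff : ∀ e, e ∉ FB L → J' e = J e := fun e he =>
    patch_not (fun h => he (Finset.mem_coe.1 h)) _ _
  have hoff' : ∀ e, e ∉ FB L → J e = J' e := fun e he => (hoff e he).symm
  obtain ⟨g1, g2, g3⟩ := gn_spec hk hJ'.1
  have hreach : ∀ c, ∃ ρ, GS Set.univ J ρ ∧ Rc J (gn k c J') ρ ∧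
      ∀ e ∈ FB L, bp ρ e = bp (s c) e := by
    intro c
    refine gsb_reach (ga_gs (g1 c).1) hoff (hs c).1 fun s' hs' => ?_
    have h1 := (hs c).2 s' hs'
    unfold HE wg at h1
    exact h1
  choose ρ h1 h2 h3 using hreach
  obtain ⟨π, hπ, hπ'⟩ := exists_perm hk hJ ρ (fun c => gs_ga hJ.2.1 (h1 c)) fun c c' h => by
    have h4 : Rc J (gn k c' J') (ρ c) := (h2 c').congr_right h
    have h5 := hJ'.2.2.inj (ga_gs (g1 c).1) (ga_gs (g1 c').1) (h1 c) hoff' (h2 c) h4
    by_contra hne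
    have h6 : gn k c' J' ≠ gn k c J' := fun he => hne (g2 c c' he.symm)
    exact h5.elim h6 (ne_of_GZ (g1 c) (g1 c') h6)
  exact ⟨π, hπ, fun c e he => (hπ' c e).trans (h3 c e he)⟩

/-- the average of the bonds -/
noncomputable def Mb (k : ℕ) (e : E) (J : E → ℝ) : ℝ := (∑ c : Fin k, bp (gn k c J) e) / k

lemma Mb_meas (k : ℕ) (e : E) : Measurable (Mb k e) :=
  (Finset.measurable_sum _ fun c _ => gn_bp_meas k c e).div_const _

lemma gn_spin (k : ℕ) (c : Fin k) (J : E → ℝ) : Spin (gn k c J) := by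
  intro x
  unfold gn
  split_ifs <;> simp

lemma Mb_le (hk : 0 < k) (e : E) (J : E → ℝ) : |Mb k e J| ≤ 1 := by
  unfold Mb
  have hk' : (0 : ℝ) < k := by exact_mod_cast hk
  rw [abs_div, abs_of_pos hk', div_le_one hk']
  refine (Finset.abs_sum_le_sum_abs _ _).trans ?_
  rw [Finset.sum_congr rfl fun c _ => (gn_spin k c J).bp_abs e, Finset.sum_const, Finset.card_univ,
    Fintype.card_fin, nsmul_eq_mul, mul_one]

/-- covariance of the average -/
lemma Mb_sh (hk : 0 < k) {a : V} {J : E → ℝ} (hJ : (GZ J).ncard = k) (hJ' : Gd k (sh a J))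
    (e : E) : Mb k e (sh a J) = Mb k (st a e) J := by
  obtain ⟨g1, g2, g3⟩ := gn_spec hk hJ
  obtain ⟨π, hπ, h⟩ := exists_perm hk hJ' (fun c => sT a (gn k c J)) (fun c => GA.sh (g1 c).1 a)
    fun c c' h => gn_bond_inj hk hJ fun e => by
      have h1 := h (st (-a) e)
      rwa [sT_bp, sT_bp, st_surj] at h1
  unfold Mb
  rw [← sum_perm hπ fun c => h c e]
  simp only [sT_bp]

/-- the families -/
lemma exists_fam (hat : ∀ x, μ {x} = 0) (hk : 0 < k)
    (hN : ∀ᵐ J ∂(infinitePi fun _ : E => μ), (GZ J).ncard = k) :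
    ∃ (w : Fin k → ℕ → (E → ℝ) → (V → ℝ) → ℝ) (σ : Fin k → ℕ → (E → ℝ) → V → ℝ),
      (∀ c, Sq μ (w c) (σ c)) ∧ ∀ᵐ J ∂(infinitePi fun _ : E => μ), ∀ L : ℕ,
        ∃ π : Fin k → Fin k, Function.Bijective π ∧
          ∀ c, ∀ e ∈ FB L, bp (gn k (π c) J) e = bp (σ c L J) e := by
  choose K hK using fun L => exists_ref hat hk hN L
  choose φ h1 h2 using fun (c : Fin k) (L : ℕ) => exists_gsb (wg_bt (L := L) (K L) (gn_meas k c))
  refine ⟨fun c L => wg L (K L) (gn k c), φ, fun c => ⟨fun L => wg_bt (K L) (gn_meas k c), h1 c,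
    fun L => Eventually.of_forall fun J => h2 c L J⟩, ?_⟩
  filter_upwards [gd_ae hat hk hN, ae_all_iff.2 hK] with J h3 h4 L
  exact fam hk h3 (h4 L) fun c => h2 c L J

lemma st_FB {L : ℕ} {a : V} (ha : a ∈ pos L) (i : Fin 2) : st a ((0, i) : E) ∈ FB L := by
  have h1 : ∀ j, 0 ≤ a j ∧ a j < L := by
    intro j
    unfold pos at ha
    have := Fintype.mem_piFinset.1 ha j
    exact Finset.mem_Ico.1 this
  rw [mem_FB]
  have e1 : (st a ((0, i) : E)).1 = a := by unfold st; simp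
  have e2 : (st a ((0, i) : E)).2 = i := rfl
  rw [e1, e2]
  exact ⟨fun j => ⟨(h1 j).1, (h1 j).2.le⟩, (h1 i).2⟩

/-- the correlations with local functions -/
lemma int_eq (hat : ∀ x, μ {x} = 0) (hk : 0 < k)
    (hN : ∀ᵐ J ∂(infinitePi fun _ : E => μ), (GZ J).ncard = k) {i : Fin 2} {m : (E → ℝ) → ℝ}
    (hm : Um μ (0, i) m) {F : Finset E} {φ : (E → ℝ) → ℝ} (hφ : Lo F φ) :
    ∫ J, φ J * m J ∂(infinitePi fun _ : E => μ) =
      ∫ J, φ J * Mb k (0, i) J ∂(infinitePi fun _ : E => μ) := by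
  set P := infinitePi fun _ : E => μ with hP
  have hk' : (0 : ℝ) < k := by exact_mod_cast hk
  obtain ⟨w, σ, hs, hσ⟩ := exists_fam hat hk hN
  set x := ∫ J, φ J * m J ∂P with hx
  set y := ∫ J, φ J * Mb k (0, i) J ∂P with hy
  have hgd := gd_ae hat hk hN
  -- the sum over the classes
  have h1 : ∀ L, ∀ a ∈ pos L, ∑ c, PL μ φ (0, i) (σ c L) a = k * y := by
    intro L a ha
    unfold PL
    have hi : ∀ c, Integrable (fun J => φ (sh a J) * bp (σ c L J) (st a (0, i))) P := by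
      intro c
      refine Integrable.of_bound ((hφ.meas.comp (measurable_sh a)).mul
        (bpm ((hs c).meas L) _)).aestronglyMeasurable 1 ?_
      filter_upwards [(hs c).gs L] with J hJ
      rw [Real.norm_eq_abs, abs_mul, hJ.1.bp_abs, mul_one]
      exact hφ.le _
    rw [← integral_finsetSum _ fun c _ => hi c]
    have h2 : ∫ J, ∑ c, φ (sh a J) * bp (σ c L J) (st a (0, i)) ∂P =
        ∫ J, k * (φ (sh a J) * Mb k (0, i) (sh a J)) ∂P := by
      refine integral_congr_ae ?_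
      filter_upwards [hσ, hN, (sh_law μ a).quasiMeasurePreserving.ae hgd] with J h3 h4 h5
      obtain ⟨π, hπ, h6⟩ := h3 L
      rw [← Finset.mul_sum, Mb_sh hk h4 h5]
      have h7 := sum_perm (J := J) (τ := fun c => σ c L J) hπ
        (e := st a (0, i)) fun c => h6 c _ (st_FB ha i)
      rw [h7]
      unfold Mb
      field_simp
    rw [h2, integral_const_mul]
    congr 1
    exact mp_int (sh_law μ a) (g := fun J => φ J * Mb k (0, i) J)
      (hφ.meas.mul (Mb_meas k _))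
  have h2 : Tendsto (fun L : ℕ => ∑ c : Fin k, (∑ a ∈ pos L, |PL μ φ (0, i) (σ c L) a - x|) /
      (L : ℝ) ^ 2) atTop (𝓝 (∑ _c : Fin k, 0)) :=
    tendsto_finsetSum _ fun c _ => hm.univ _ _ (hs c) F (fun _ _ => φ) fun _ _ => hφ
  rw [Finset.sum_const_zero] at h2
  have h3 : k * |y - x| ≤ 0 := by
    refine ge_of_tendsto h2 ?_
    filter_upwards [eventually_ge_atTop 1] with L hL
    have hL0 : (0 : ℝ) < (L : ℝ) ^ 2 := by
      have : (0 : ℝ) < L := by exact_mod_cast hL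
      positivity
    rw [← Finset.sum_div, Finset.sum_comm, le_div_iff₀ hL0, ← avg_const hL (k * |y - x|),
      div_mul_cancel₀ _ hL0.ne']
    refine Finset.sum_le_sum fun a ha => ?_
    refine le_trans (le_of_eq ?_) (Finset.abs_sum_le_sum_abs _ _)
    rw [Finset.sum_sub_distrib, h1 L a ha, Finset.sum_const, Finset.card_univ, Fintype.card_fin,
      nsmul_eq_mul, ← mul_sub, abs_mul, abs_of_pos hk']
  have h4 : |y - x| = 0 := le_antisymm (by nlinarith [abs_nonneg (y - x)]) (abs_nonneg _)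
  have := abs_eq_zero.1 h4
  linarith

/-- **The average over the ground states is universal.** -/
theorem Um_Mb (hμ : Integrable (fun x : ℝ => x) μ) (hat : ∀ x, μ {x} = 0) (hk : 0 < k)
    (hN : ∀ᵐ J ∂(infinitePi fun _ : E => μ), (GZ J).ncard = k) (i : Fin 2) :
    Um μ (0, i) (Mb k (0, i)) := by
  obtain ⟨m, hm⟩ := exists_Um hμ hat ((0, i) : E)
  refine ⟨Mb_meas k _, Mb_le hk _, fun w σ hs F φ hφ => ?_⟩
  refine (hm.univ w σ hs F φ hφ).congr fun L => ?_
  congr 1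
  refine Finset.sum_congr rfl fun a _ => ?_
  rw [int_eq hat hk hN hm (hφ L a)]

end Pool.Agent.Helper24.FN
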