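import Pool.Agent.Helper24.FN.F

/-!
# Counting the ground states
-/

set_option autoImplicit false
set_option linter.unusedSectionVars false

open MeasureTheory Measure Filter Topology

namespace Pool.Agent.Helper24.FN

open Pool.Agent.K3h93.EA Pool.Agent.Helper24.EA
open Pool.Agent.K3h93.EF hiding psi_eq psi_le psi_meas upper1 psi_le' step1 step2 step3 scale_est main_est main_abs
open Pool.Agent.R239.EA (dC nx u GI Gn bx tb Lw Inf spin GA GA_iff GI_congr GI_meas spin_pm dC_finite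
  eq_empty_of_dC energy bx_sub nrm_zero mem_bx nrm congruent not_congruent edge_iff gn_ae)

variable {μ : Measure ℝ} [IsProbabilityMeasure μ] {k : ℕ} {J : E → ℝ}

lemma GA.ng {σ : V → ℝ} (h : GA J σ) : GA J (-σ) := by
  rw [ga_iff] at h ⊢
  refine ⟨h.1.neg, fun β hβ hfin hne => ?_⟩
  have h2 := h.2 (-β) hβ.neg (hfin.subset fun x hx => ?_) fun he => hne ?_
  · rw [WD_neg_left]
    rwa [WD_neg_right] at h2
  · intro h3
    apply hx
    rw [Pi.neg_apply, h3, Pi.neg_apply, neg_neg]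
  · rw [← he, neg_neg]

/-- all ground states -/
def GAll (J : E → ℝ) : Set (V → ℝ) := {σ | GA J σ}

lemma GAll_eq (J : E → ℝ) : GAll J = GZ J ∪ (fun σ => -σ) '' GZ J := by
  ext σ
  constructor
  · intro h
    obtain ⟨σ', h1, h2⟩ := GA.nz (show GA J σ from h)
    rcases h2 with rfl | rfl
    · exact Or.inl h1
    · exact Or.inr ⟨-σ, h1, neg_neg σ⟩
  · rintro (h | ⟨σ', h, rfl⟩)
    · exact h.1
    · exact GA.ng h.1

lemma GAll_disj (J : E → ℝ) : Disjoint (GZ J) ((fun σ => -σ) '' GZ J) := by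
  rw [Set.disjoint_left]
  rintro σ h ⟨σ', h', rfl⟩
  have h1 : (-σ') 0 = 1 := h.2
  rw [Pi.neg_apply, h'.2] at h1
  norm_num at h1

lemma GZ_fin (h : (GAll J).Finite) : (GZ J).Finite := h.subset fun _ hσ => hσ.1

lemma GAll_ncard (h : (GAll J).Finite) : (GAll J).ncard = 2 * (GZ J).ncard := by
  have h1 := GZ_fin h
  rw [GAll_eq, Set.ncard_union_eq (GAll_disj J) h1 (h1.image _),
    Set.ncard_image_of_injective _ neg_injective]
  ring

lemma GZ_range (hk : 0 < k) (hJ : (GZ J).ncard = k) : GZ J = Set.range fun c : Fin k => gn k c J := by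
  obtain ⟨g1, g2, g3⟩ := gn_spec hk hJ
  ext σ
  constructor
  · intro h
    exact g3 σ h
  · rintro ⟨c, rfl⟩
    exact g1 c

lemma sum_GZ (hk : 0 < k) (hJ : (GZ J).ncard = k) (f : (V → ℝ) → ℝ) :
    ∑ᶠ σ ∈ GZ J, f σ = ∑ c : Fin k, f (gn k c J) := by
  obtain ⟨g1, g2, g3⟩ := gn_spec hk hJ
  rw [GZ_range hk hJ, finsum_mem_range (fun c c' h => g2 c c' h), finsum_eq_sum_of_fintype]

lemma sum_GAll (hk : 0 < k) (hJ : (GZ J).ncard = k) (e : E) :
    ∑ᶠ σ ∈ GAll J, bp σ e = 2 * ∑ c : Fin k, bp (gn k c J) e := by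
  have h1 : (GZ J).Finite := Set.finite_of_ncard_pos (by omega)
  rw [GAll_eq, finsum_mem_union (GAll_disj J) h1 (h1.image _),
    finsum_mem_image (fun σ _ τ _ h => neg_injective h)]
  simp only [bp_neg]
  rw [sum_GZ hk hJ fun σ => bp σ e]
  ring

/-- the average of the bonds over all ground states -/
lemma mean_eq (hk : 0 < k) (hJ : (GZ J).ncard = k) (hf : (GAll J).Finite) (e : E) :
    (∑ᶠ σ ∈ GAll J, bp σ e) / ((GAll J).ncard : ℝ) = Mb k e J := by
  rw [sum_GAll hk hJ, GAll_ncard hf, hJ]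
  unfold Mb
  push_cast
  have hk' : (0 : ℝ) < k := by exact_mod_cast hk
  field_simp

lemma sum_toF (hk : 0 < k) (hJ : (GZ J).ncard = k) (hf : (GAll J).Finite) (e : E) :
    ∑ σ ∈ hf.toFinset, bp σ e = Mb k e J * hf.toFinset.card ∧ (0 : ℝ) < hf.toFinset.card := by
  have hN : (GAll J).ncard = hf.toFinset.card := Set.ncard_eq_toFinset_card _ hf
  have hpos : (0 : ℝ) < hf.toFinset.card := by
    have : 0 < hf.toFinset.card := by
      rw [← hN, GAll_ncard hf, hJ]
      omega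
    exact_mod_cast this
  refine ⟨?_, hpos⟩
  have h4 := mean_eq hk hJ hf e
  have h5 : ∑ᶠ σ ∈ GAll J, bp σ e = ∑ σ ∈ hf.toFinset, bp σ e :=
    finsum_mem_eq_finite_toFinset_sum _ hf
  rw [h5, hN] at h4
  rw [← h4]
  field_simp

/-- the pairs of ground states for two couplings which differ at the bond `e` -/
lemma split_eq (hk : 0 < k) {J' : E → ℝ} (hJ : (GZ J).ncard = k) (hf : (GAll J).Finite)
    (hJ' : (GZ J').ncard = k) (hf' : (GAll J').Finite) (e : E) :
    ({p : (V → ℝ) × (V → ℝ) | p.1 ∈ GAll J ∧ p.2 ∈ GAll J' ∧ bp p.1 e ≠ bp p.2 e}.ncard : ℝ) /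
      (((GAll J).ncard : ℝ) * ((GAll J').ncard : ℝ)) = (1 - Mb k e J * Mb k e J') / 2 := by
  classical
  obtain ⟨h3, hpos⟩ := sum_toF hk hJ hf e
  obtain ⟨h3', hpos'⟩ := sum_toF hk hJ' hf' e
  have hN : (GAll J).ncard = hf.toFinset.card := Set.ncard_eq_toFinset_card _ hf
  have hN' : (GAll J').ncard = hf'.toFinset.card := Set.ncard_eq_toFinset_card _ hf'
  set s := hf.toFinset with hs
  set s' := hf'.toFinset with hs'
  have hset : {p : (V → ℝ) × (V → ℝ) | p.1 ∈ GAll J ∧ p.2 ∈ GAll J' ∧ bp p.1 e ≠ bp p.2 e} =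
      ((s ×ˢ s').filter (fun p => bp p.1 e ≠ bp p.2 e) : Finset ((V → ℝ) × (V → ℝ))) := by
    ext p
    rw [Finset.mem_coe, Finset.mem_filter, Finset.mem_product, hf.mem_toFinset, hf'.mem_toFinset]
    simp only [Set.mem_ofPred_eq, and_assoc]
  have h1 : (((s ×ˢ s').filter fun p => bp p.1 e ≠ bp p.2 e).card : ℝ) =
      ∑ p ∈ s ×ˢ s', (1 - bp p.1 e * bp p.2 e) / 2 := by
    rw [Finset.card_filter]
    push_cast
    refine Finset.sum_congr rfl fun p hp => ?_
    rw [Finset.mem_product] at hp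
    have h2 : Spin p.1 := ((hf.mem_toFinset.1 hp.1 : GA J p.1) 0).1
    have h3 : Spin p.2 := ((hf'.mem_toFinset.1 hp.2 : GA J' p.2) 0).1
    rcases h2.bp_cases e with h | h <;> rcases h3.bp_cases e with h' | h' <;> rw [h, h'] <;>
      norm_num
  have h2 : ∑ p ∈ s ×ˢ s', (1 - bp p.1 e * bp p.2 e) / 2 =
      ((s.card : ℝ) * s'.card - (∑ σ ∈ s, bp σ e) * (∑ σ ∈ s', bp σ e)) / 2 := by
    rw [← Finset.sum_div, Finset.sum_sub_distrib, Finset.sum_const, Finset.card_product,
      nsmul_eq_mul, mul_one, Finset.sum_mul_sum, Finset.sum_product]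
    push_cast
    ring
  rw [hset, Set.ncard_coe_finset, h1, h2, h3, h3', hN, hN']
  field_simp

/-- if the average has absolute value `1` then there is only one pair -/
lemma one_of_chi (hat : ∀ x, μ {x} = 0) (hk : 0 < k)
    (hN : ∀ᵐ J ∂(infinitePi fun _ : E => μ), (GZ J).ncard = k)
    (h0 : ∀ i : Fin 2, NZ.chi μ (Mb k (0, i)) = 0) : k = 1 := by
  have h1 : ∀ i : Fin 2, ∀ᵐ J ∂(infinitePi fun _ : E => μ), Mb k (0, i) J ^ 2 = 1 := by
    intro i
    have h2 := h0 i
    unfold NZ.chi at h2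
    have hi := NZ.m2_int (μ := μ) (Mb_meas k (0, i)) (Mb_le hk _)
    have h3 : ∫ J, (1 - Mb k (0, i) J ^ 2) ∂(infinitePi fun _ : E => μ) = 0 := by
      rw [integral_sub (integrable_const _) hi, integral_const, probReal_univ, one_smul]
      linarith
    have h4 : ∀ J, 0 ≤ 1 - Mb k (0, i) J ^ 2 := fun J => by
      have := Mb_le hk (0, i) J
      rw [← sq_abs]
      nlinarith [abs_nonneg (Mb k (0, i) J)]
    have h5 := (integral_eq_zero_iff_of_nonneg h4 ((integrable_const _).sub hi)).1 h3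
    filter_upwards [h5] with J hJ
    simp only [Pi.zero_apply] at hJ
    linarith
  have h2 : ∀ᵐ J ∂(infinitePi fun _ : E => μ), ∀ e : E, Mb k e J ^ 2 = 1 := by
    refine ae_all_iff.2 fun e => ?_
    filter_upwards [hN, (sh_law μ e.1).quasiMeasurePreserving.ae (h1 e.2),
      (sh_law μ e.1).quasiMeasurePreserving.ae (gd_ae hat hk hN)] with J h3 h4 h5
    rw [Mb_sh hk h3 h5] at h4
    have h6 : st e.1 ((0, e.2) : E) = e := by unfold st; simp
    rwa [h6] at h4
  obtain ⟨J, h3, h4⟩ := (hN.and h2).exists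
  have h5 : ∀ c c' : Fin k, c = c' := by
    intro c c'
    refine gn_bond_inj hk h3 fun e => ?_
    have hk' : (0 : ℝ) < k := by exact_mod_cast hk
    have h6 := h4 e
    unfold Mb at h6
    rw [div_pow, div_eq_one_iff_eq (by positivity)] at h6
    by_contra hne
    -- the sum has absolute value less than `k`
    have h7 : |∑ c : Fin k, bp (gn k c J) e| = k := by
      have := (sq_eq_sq_iff_abs_eq_abs _ _).1 h6
      rwa [abs_of_pos hk'] at this
    have hb : ∀ c, bp (gn k c J) e ≤ 1 ∧ -1 ≤ bp (gn k c J) e := fun c => bp_le_one (gn_spin k c J) e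
    have hc := (gn_spin k c J).bp_cases e
    have hc' := (gn_spin k c' J).bp_cases e
    have h8 : ∑ c : Fin k, (1 : ℝ) = k := by simp
    rcases abs_choice (∑ c : Fin k, bp (gn k c J) e) with h9 | h9
    · rw [h9, ← h8] at h7
      have h10 := (Finset.sum_eq_sum_iff_of_le fun i _ => (hb i).1).1 h7
      exact hne (by rw [h10 c (Finset.mem_univ _), h10 c' (Finset.mem_univ _)])
    · rw [h9, ← Finset.sum_neg_distrib, ← h8] at h7
      have h10 := (Finset.sum_eq_sum_iff_of_le fun i _ => (by linarith [(hb i).2] :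
        -bp (gn k i J) e ≤ 1)).1 h7
      have h11 := h10 c (Finset.mem_univ _)
      have h12 := h10 c' (Finset.mem_univ _)
      exact hne (by linarith)
  have h6 : k ≤ 1 := by
    by_contra hc
    have h7 := h5 ⟨0, by omega⟩ ⟨1, by omega⟩
    rw [Fin.mk.injEq] at h7
    omega
  omega

end Pool.Agent.Helper24.FN
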