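import Pool.Agent.Helper24.FN.G
import Pool.Graph.R_seed8.R239.EA.E

/-!
# The number of ground states is constant
-/

set_option autoImplicit false
set_option linter.unusedSectionVars false

open MeasureTheory Measure Filter Topology

namespace Pool.Agent.Helper24.FN

open Pool.Agent.K3h93.EA Pool.Agent.Helper24.EA
open Pool.Agent.K3h93.EF hiding psi_eq psi_le psi_meas upper1 psi_le' step1 step2 step3 scale_est main_est main_abs
open Pool.Agent.R239.EA (dC nx u GI Gn bx tb Lw Inf spin GA GA_iff GI_congr GI_meas spin_pm dC_finite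
  eq_empty_of_dC energy bx_sub nrm_zero mem_bx nrm congruent not_congruent edge_iff gn_ae exists_GA)

variable {μ : Measure ℝ} [IsProbabilityMeasure μ] {k : ℕ} {J : E → ℝ}

lemma ph_mono {r r' : ℕ} (h : r ≤ r') {α α' : V → ℝ} (h1 : Spin α) (h2 : Spin α')
    (he : ph r' α = ph r' α') : ph r α = ph r α' :=
  ph_dep fun _ hy => ph_eq h1 h2 he (bx_sub (by rw [sub_self, nrm_zero]; omega) hy)

lemma injOn_mono {r r' : ℕ} (h : r ≤ r') {S : Set (V → ℝ)} (hS : ∀ α ∈ S, Spin α)
    (hi : Set.InjOn (ph r) S) : Set.InjOn (ph r') S := fun α hα α' hα' he =>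
  hi hα hα' (ph_mono h (hS α hα) (hS α' hα') he)

/-- patterns separate the members of a finite set of configurations -/
lemma exists_sep {S : Set (V → ℝ)} (hf : S.Finite) (hS : ∀ α ∈ S, Spin α) :
    ∃ r : ℕ, Set.InjOn (ph r) S := by
  classical
  have h1 : ∀ p : (V → ℝ) × (V → ℝ), ∃ y : V, p.1 ≠ p.2 → p.1 y ≠ p.2 y := by
    intro p
    by_cases h : p.1 = p.2
    · exact ⟨0, fun h' => absurd h h'⟩
    · obtain ⟨y, hy⟩ := Function.ne_iff.1 h
      exact ⟨y, fun _ => hy⟩
  choose y hy using h1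
  refine ⟨(hf.toFinset ×ˢ hf.toFinset).sup fun p => nrm (y p), fun ρ hρ ρ' hρ' h => ?_⟩
  by_contra hne
  refine hy (ρ, ρ') hne (ph_eq (hS ρ hρ) (hS ρ' hρ') h ?_)
  rw [mem_bx, sub_zero]
  exact Finset.le_sup (f := fun p : (V → ℝ) × (V → ℝ) => nrm (y p))
    (Finset.mem_product.2 ⟨hf.mem_toFinset.2 hρ, hf.mem_toFinset.2 hρ'⟩)

lemma ph_fin (r : ℕ) (S : Set (V → ℝ)) : (ph r '' S).Finite := by
  classical
  refine ((bx (0 : V) r).powerset.finite_toSet).subset ?_
  rintro _ ⟨α, -, rfl⟩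
  rw [Finset.mem_coe, Finset.mem_powerset]
  exact Finset.filter_subset _ _

lemma GZ_spin {α : V → ℝ} (h : α ∈ GZ J) : Spin α := (h.1 0).1

lemma ncard_iff (hk : 0 < k) :
    (GZ J).ncard = k ↔ ∃ r0 : ℕ, ∀ r, r0 ≤ r → (ph r '' GZ J).ncard = k := by
  constructor
  · intro h
    have hf : (GZ J).Finite := Set.finite_of_ncard_pos (by omega)
    obtain ⟨r0, h0⟩ := exists_sep hf fun α => GZ_spin
    refine ⟨r0, fun r hr => ?_⟩
    rw [(injOn_mono hr (fun α => GZ_spin) h0).ncard_image, h]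
  · rintro ⟨r0, h0⟩
    have hf : (GZ J).Finite := by
      by_contra hinf
      obtain ⟨T, hT, hTk⟩ := (show (GZ J).Infinite from hinf).exists_subset_card_eq (k + 1)
      obtain ⟨r1, h1⟩ := exists_sep T.finite_toSet fun α hα => GZ_spin (hT hα)
      have h2 := injOn_mono (le_max_right r0 r1) (fun α hα => GZ_spin (hT hα)) h1
      have h3 : (ph (max r0 r1) '' (T : Set (V → ℝ))).ncard ≤ (ph (max r0 r1) '' GZ J).ncard :=
        Set.ncard_le_ncard (Set.image_mono hT) (ph_fin _ _)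
      rw [h2.ncard_image, Set.ncard_coe_finset, hTk, h0 _ (le_max_left _ _)] at h3
      omega
    obtain ⟨r1, h1⟩ := exists_sep hf fun α => GZ_spin
    rw [← h0 _ (le_max_left r0 r1),
      (injOn_mono (le_max_right r0 r1) (fun α => GZ_spin) h1).ncard_image]

lemma cnt_meas (hk : 0 < k) : MeasurableSet {J : E → ℝ | (GZ J).ncard = k} := by
  have h1 : {J : E → ℝ | (GZ J).ncard = k} =
      ⋃ r0 : ℕ, ⋂ r : ℕ, ⋂ _ : r0 ≤ r, ⋃ Q : Finset (Finset V),
        {_J | Q.card = k} ∩ {J : E → ℝ | ph r '' GZ J = (Q : Set (Finset V))} := by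
    ext J
    simp only [Set.mem_ofPred_eq, Set.mem_iUnion, Set.mem_iInter, Set.mem_inter_iff]
    rw [ncard_iff hk]
    refine exists_congr fun r0 => forall_congr' fun r => forall_congr' fun _ => ?_
    constructor
    · intro h
      refine ⟨(ph_fin r (GZ J)).toFinset, ?_, by rw [Set.Finite.coe_toFinset]⟩
      rw [← Set.ncard_coe_finset, Set.Finite.coe_toFinset, h]
    · rintro ⟨Q, h2, h3⟩
      rw [h3, Set.ncard_coe_finset, h2]
  rw [h1]
  exact MeasurableSet.iUnion fun r0 => MeasurableSet.iInter fun r => MeasurableSet.iInter fun _ =>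
    MeasurableSet.iUnion fun Q => (MeasurableSet.const _).inter (img_meas r Q)

lemma sT_inj (a : V) : Function.Injective (sT a) := fun σ ρ h => by
  rw [← sT_sT' a σ, h, sT_sT']

lemma GAll_sh (a : V) (J : E → ℝ) : GAll (sh a J) = sT a '' GAll J := by
  ext σ
  constructor
  · intro h
    refine ⟨sT (-a) σ, ?_, sT_sT a σ⟩
    have h1 := GA.sh (show GA (sh a J) σ from h) (-a)
    rwa [sh_sh, neg_add_cancel, sh_zero] at h1
  · rintro ⟨ρ, h, rfl⟩
    exact GA.sh h a

lemma GZ_GAll (h : (GZ J).Finite) : (GAll J).Finite := by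
  rw [GAll_eq]
  exact h.union (h.image _)

lemma cnt_sh (hk : 0 < k) (a : V) : (GZ (sh a J)).ncard = k ↔ (GZ J).ncard = k := by
  have h1 : ∀ (a : V) (J : E → ℝ), (GZ J).ncard = k → (GZ (sh a J)).ncard = k := by
    intro a J h
    have hf : (GZ J).Finite := Set.finite_of_ncard_pos (by omega)
    have h2 := GZ_GAll hf
    have h3 : (GAll (sh a J)).Finite := by
      rw [GAll_sh]
      exact h2.image _
    have h4 : (GAll (sh a J)).ncard = (GAll J).ncard := by
      rw [GAll_sh, Set.ncard_image_of_injective _ (sT_inj a)]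
    rw [GAll_ncard h3, GAll_ncard h2, h] at h4
    omega
  refine ⟨fun h => ?_, h1 a J⟩
  have h2 := h1 (-a) _ h
  rwa [sh_sh, neg_add_cancel, sh_zero] at h2

/-- **The number is infinite or constant.** -/
theorem dich (hat : ∀ x, μ {x} = 0) :
    (∀ᵐ J ∂(infinitePi fun _ : E => μ), (GAll J).Infinite) ∨
      ∃ k : ℕ, 0 < k ∧ ∀ᵐ J ∂(infinitePi fun _ : E => μ), (GAll J).Finite ∧ (GZ J).ncard = k := by
  set P := infinitePi fun _ : E => μ with hP
  by_cases hall : ∀ k : ℕ, 0 < k → P.real {J : E → ℝ | (GZ J).ncard = k} = 0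
  · left
    have h1 : ∀ᵐ J ∂P, ∀ k : ℕ, 0 < k → (GZ J).ncard ≠ k := by
      refine ae_all_iff.2 fun k => ?_
      by_cases hk : 0 < k
      · have h2 := hall k hk
        rw [measureReal_eq_zero_iff] at h2
        exact (measure_eq_zero_iff_ae_notMem.1 h2).mono fun J hJ _ => hJ
      · exact Eventually.of_forall fun J h => absurd h hk
    filter_upwards [h1, gn_ae (d := 2) μ hat] with J h2 h3 hfin
    obtain ⟨σ, hσ⟩ := exists_GA le_rfl h3
    obtain ⟨σ', hσ', -⟩ := GA.nz hσ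
    have h4 := GZ_fin hfin
    exact h2 _ ((Set.ncard_pos h4).2 ⟨σ', hσ'⟩) rfl
  · right
    push Not at hall
    obtain ⟨k, hk, hne⟩ := hall
    have h01 := erg' (μ := μ) (cnt_meas hk) fun a => Eventually.of_forall fun J =>
      (cnt_sh (J := J) hk a)
    have h1 := h01.resolve_left hne
    refine ⟨k, hk, ?_⟩
    have h2 : P {J : E → ℝ | (GZ J).ncard = k} = 1 := by
      rw [← ENNReal.toReal_eq_one_iff]
      exact h1
    filter_upwards [(mem_ae_iff_prob_eq_one₀ (cnt_meas hk).nullMeasurableSet).2 h2] with J hJ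
    have h3 : (GZ J).ncard = k := hJ
    exact ⟨GZ_GAll (Set.finite_of_ncard_pos (by omega)), h3⟩

end Pool.Agent.Helper24.FN
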