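import Pool.Agent.Helper24.FN.H

/-!
# The correlation of a family with the universal function
-/

set_option autoImplicit false
set_option linter.unusedSectionVars false

open MeasureTheory Measure Filter Topology

namespace Pool.Agent.Helper24.FN

open Pool.Agent.K3h93.EA Pool.Agent.Helper24.EA Pool.Agent.Helper24.NZ
open Pool.Agent.K3h93.EF hiding psi_eq psi_le psi_meas upper1 psi_le' step1 step2 step3 scale_est main_est main_abs

variable {μ : Measure ℝ} [IsProbabilityMeasure μ] {k : ℕ} {J : E → ℝ} {e : E} {m : (E → ℝ) → ℝ}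
  {w : ℕ → (E → ℝ) → (V → ℝ) → ℝ} {σ : ℕ → (E → ℝ) → V → ℝ}

lemma dist_cm (hm : Um μ e m) (F : Finset E) :
    ∫ J, |m J - cm μ m F J| ∂(infinitePi fun _ : E => μ) ≤
      ∫ p, |m p.1 - m (patch ((F : Finset E) : Set E)ᶜ p.1 p.2)|
        ∂((infinitePi fun _ : E => μ).prod (infinitePi fun _ : E => μ)) := by
  set P := infinitePi fun _ : E => μ with hP
  have mp : Measurable fun p : (E → ℝ) × (E → ℝ) =>
      m (patch ((F : Finset E) : Set E)ᶜ p.1 p.2) := hm.meas.comp (measurable_patch _)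
  have i1 : Integrable (fun p : (E → ℝ) × (E → ℝ) =>
      |m p.1 - m (patch ((F : Finset E) : Set E)ᶜ p.1 p.2)|) (P.prod P) :=
    pp_bdd μ ((hm.meas.comp measurable_fst).sub mp).abs (C := 1 + 1) fun p => by
      rw [abs_abs]; exact (abs_sub _ _).trans (add_le_add (hm.le _) (hm.le _))
  rw [integral_prod _ i1]
  refine integral_mono (int_bdd μ (hm.meas.sub (hm.cm_meas _)).abs (C := 1 + 1) fun J => by
    rw [abs_abs]; exact (abs_sub _ _).trans (add_le_add (hm.le _) (hm.cm_le _ _)))
    i1.integral_prod_left fun J => ?_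
  simp only
  have mJ : Measurable fun y => m (patch ((F : Finset E) : Set E)ᶜ J y) :=
    mp.comp (measurable_const.prodMk measurable_id)
  have iJ : Integrable (fun y => m (patch ((F : Finset E) : Set E)ᶜ J y)) P :=
    int_bdd μ mJ fun y => hm.le _
  have e1 : m J - cm μ m F J =
      ∫ y, (m J - m (patch ((F : Finset E) : Set E)ᶜ J y)) ∂P := by
    rw [integral_sub (integrable_const _) iJ, integral_const, probReal_univ, one_smul]
    rfl
  rw [e1]
  exact abs_integral_le_integral_abs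

lemma exists_cm (hm : Um μ e m) {ε : ℝ} (hε : 0 < ε) : ∃ F : Finset E,
    ∫ J, |m J - cm μ m F J| ∂(infinitePi fun _ : E => μ) < ε := by
  have h1 := approx μ hm.meas hm.le (I := fun M => ((bM M : Finset E) : Set E)) bM_exhaust
  rw [Metric.tendsto_atTop] at h1
  obtain ⟨M, hM⟩ := h1 ε hε
  have h2 := hM M le_rfl
  rw [Real.dist_eq, sub_zero] at h2
  exact ⟨bM M, (dist_cm hm (bM M)).trans_lt (lt_of_abs_lt h2)⟩

/-- **The correlation.** -/
theorem corr (hm : Um μ e m) (hs : Sq μ w σ) :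
    Tendsto (fun n : ℕ => (∑ a ∈ pos n, ∫ J, bp (σ n J) (st a e) * m (sh a J)
      ∂(infinitePi fun _ : E => μ)) / (n : ℝ) ^ 2) atTop
      (𝓝 (∫ J, m J ^ 2 ∂(infinitePi fun _ : E => μ))) := by
  set P := infinitePi fun _ : E => μ with hP
  rw [Metric.tendsto_atTop]
  intro ε hε
  obtain ⟨F, hF⟩ := exists_cm hm (show 0 < ε / 4 by linarith)
  have hlo : Lo F (cm μ m F) := ⟨hm.cm_meas F, hm.cm_le F, cm_dep m F⟩
  have h1 := hm.univ w σ hs F (fun _ _ => cm μ m F) fun _ _ => hlo
  rw [Metric.tendsto_atTop] at h1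
  obtain ⟨N, hN⟩ := h1 (ε / 4) (by linarith)
  refine ⟨max N 1, fun n hn => ?_⟩
  have hn1 : 1 ≤ n := le_trans (le_max_right _ _) hn
  have h2 := hN n (le_trans (le_max_left _ _) hn)
  rw [Real.dist_eq, sub_zero] at h2
  have h2' := lt_of_abs_lt h2
  have hn0 : (0 : ℝ) < (n : ℝ) ^ 2 := by
    have : (0 : ℝ) < n := by exact_mod_cast hn1
    positivity
  have hD : Measurable fun J => |m J - cm μ m F J| := (hm.meas.sub (hm.cm_meas _)).abs
  have iD : Integrable (fun J => |m J - cm μ m F J|) P :=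
    int_bdd μ hD (C := 1 + 1) fun J => by
      rw [abs_abs]; exact (abs_sub _ _).trans (add_le_add (hm.le _) (hm.cm_le _ _))
  -- one position
  have h3 : ∀ a ∈ pos n, |∫ J, bp (σ n J) (st a e) * m (sh a J) ∂P - ∫ J, m J ^ 2 ∂P| ≤
      |PL μ (cm μ m F) e (σ n) a - ∫ J, cm μ m F J * m J ∂P| + ε / 2 := by
    intro a _
    have mb : Measurable fun J => bp (σ n J) (st a e) := bpm (hs.meas n) _
    have hb : ∀ᵐ J ∂P, |bp (σ n J) (st a e)| = 1 :=
      (hs.gs n).mono fun J hJ => hJ.1.bp_abs _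
    have i1 : Integrable (fun J => bp (σ n J) (st a e) * m (sh a J)) P := by
      refine Integrable.of_bound (mb.mul (hm.meas.comp (measurable_sh a))).aestronglyMeasurable 1 ?_
      filter_upwards [hb] with J hJ
      rw [Real.norm_eq_abs, abs_mul, hJ, one_mul]
      exact hm.le _
    have i2 : Integrable (fun J => cm μ m F (sh a J) * bp (σ n J) (st a e)) P := by
      refine Integrable.of_bound (((hm.cm_meas F).comp (measurable_sh a)).mul
        mb).aestronglyMeasurable 1 ?_
      filter_upwards [hb] with J hJ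
      rw [Real.norm_eq_abs, abs_mul, hJ, mul_one]
      exact hm.cm_le _ _
    have h4 : |∫ J, bp (σ n J) (st a e) * m (sh a J) ∂P - PL μ (cm μ m F) e (σ n) a| ≤ ε / 4 := by
      unfold PL
      rw [← integral_sub i1 i2]
      refine abs_integral_le_integral_abs.trans ?_
      refine le_trans ?_ hF.le
      rw [← mp_int (sh_law μ a) (g := fun J => |m J - cm μ m F J|) hD]
      refine integral_mono_ae (i1.sub i2).abs
        ((sh_law μ a).integrable_comp_of_integrable iD) ?_
      filter_upwards [hb] with J hJ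
      rw [show bp (σ n J) (st a e) * m (sh a J) - cm μ m F (sh a J) * bp (σ n J) (st a e) =
        bp (σ n J) (st a e) * (m (sh a J) - cm μ m F (sh a J)) by ring, abs_mul, hJ, one_mul]
    have h5 : |∫ J, cm μ m F J * m J ∂P - ∫ J, m J ^ 2 ∂P| ≤ ε / 4 := by
      have i3 : Integrable (fun J => cm μ m F J * m J) P :=
        int_bdd μ ((hm.cm_meas F).mul hm.meas) (C := 1) fun J => by
          rw [abs_mul]
          exact mul_le_one₀ (hm.cm_le F J) (abs_nonneg _) (hm.le J)
      rw [← integral_sub i3 (m2_int hm.meas hm.le)]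
      refine abs_integral_le_integral_abs.trans (le_trans ?_ hF.le)
      refine integral_mono (int_bdd μ (((hm.cm_meas F).mul hm.meas).sub
        (hm.meas.pow_const 2)).abs (C := 2) fun J => ?_) iD fun J => ?_
      · rw [abs_abs]
        refine (abs_sub _ _).trans ?_
        rw [abs_mul, abs_of_nonneg (sq_nonneg (m J)), ← sq_abs (m J)]
        have h6 := hm.cm_le F J
        have h7 := hm.le J
        nlinarith [abs_nonneg (m J), abs_nonneg (cm μ m F J)]
      · simp only
        rw [show cm μ m F J * m J - m J ^ 2 = -((m J - cm μ m F J) * m J) by ring, abs_neg, abs_mul]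
        have h6 := hm.le J
        nlinarith [abs_nonneg (m J - cm μ m F J)]
    have h6 := abs_le.1 h4
    have h7 := abs_le.1 h5
    have h8 := neg_abs_le (PL μ (cm μ m F) e (σ n) a - ∫ J, cm μ m F J * m J ∂P)
    have h9 := le_abs_self (PL μ (cm μ m F) e (σ n) a - ∫ J, cm μ m F J * m J ∂P)
    rw [abs_le]
    constructor <;> linarith [h6.1, h6.2, h7.1, h7.2]
  have h4 : |(∑ a ∈ pos n, ∫ J, bp (σ n J) (st a e) * m (sh a J) ∂P) / (n : ℝ) ^ 2 -
      ∫ J, m J ^ 2 ∂P| ≤ (∑ a ∈ pos n, |PL μ (cm μ m F) e (σ n) a - ∫ J, cm μ m F J * m J ∂P|) /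
        (n : ℝ) ^ 2 + ε / 2 := by
    rw [← avg_const hn1 (∫ J, m J ^ 2 ∂P), ← avg_const hn1 (ε / 2), ← sub_div, ← add_div,
      abs_div, abs_of_pos hn0]
    refine div_le_div_of_nonneg_right ?_ hn0.le
    rw [← Finset.sum_sub_distrib, ← Finset.sum_add_distrib]
    exact (Finset.abs_sum_le_sum_abs _ _).trans (Finset.sum_le_sum h3)
  rw [Real.dist_eq]
  linarith

/-- the average of the disagreements with the families of the ground states -/
theorem avg_dis (hμ : Integrable (fun x : ℝ => x) μ) (hat : ∀ x, μ {x} = 0) (hk : 0 < k)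
    (hN : ∀ᵐ J ∂(infinitePi fun _ : E => μ), (GZ J).ncard = k)
    {w' : Fin k → ℕ → (E → ℝ) → (V → ℝ) → ℝ} {g : Fin k → ℕ → (E → ℝ) → V → ℝ}
    (hg : ∀ c, Sq μ (w' c) (g c))
    (hp : ∀ᵐ J ∂(infinitePi fun _ : E => μ), ∀ L : ℕ, ∃ π : Fin k → Fin k, Function.Bijective π ∧
      ∀ c, ∀ e ∈ FB L, bp (gn k (π c) J) e = bp (g c L J) e) (i : Fin 2) (hs : Sq μ w σ) :
    Tendsto (fun n : ℕ => (∑ c, Ds μ (0, i) (σ n) (g c n) n) / (k : ℝ)) atTop
      (𝓝 (NZ.chi μ (Mb k (0, i)))) := by
  set P := infinitePi fun _ : E => μ with hP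
  have hk' : (0 : ℝ) < k := by exact_mod_cast hk
  have hU := Um_Mb hμ hat hk hN i
  have h1 := ((corr hU hs).const_sub 1).div_const 2
  refine h1.congr' ?_
  filter_upwards [eventually_ge_atTop 1] with n hn
  have h2 : ∀ a ∈ pos n, ∑ c, P.real {J | bp (σ n J) (st a (0, i)) ≠ bp (g c n J) (st a (0, i))} =
      k * ((1 - ∫ J, bp (σ n J) (st a (0, i)) * Mb k (0, i) (sh a J) ∂P) / 2) := by
    intro a ha
    have h3 : ∀ c, P.real {J | bp (σ n J) (st a (0, i)) ≠ bp (g c n J) (st a (0, i))} =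
        (1 - ∫ J, bp (σ n J) (st a (0, i)) * bp (g c n J) (st a (0, i)) ∂P) / 2 := fun c =>
      prob_ne P (bpm (hs.meas n) _) (bpm ((hg c).meas n) _)
        ((hs.gs n).mono fun J hJ => hJ.1.bp_cases _)
        (((hg c).gs n).mono fun J hJ => hJ.1.bp_cases _)
    have i1 : ∀ c, Integrable (fun J => bp (σ n J) (st a (0, i)) * bp (g c n J) (st a (0, i))) P := by
      intro c
      refine Integrable.of_bound ((bpm (hs.meas n) _).mul
        (bpm ((hg c).meas n) _)).aestronglyMeasurable 1 ?_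
      filter_upwards [hs.gs n, (hg c).gs n] with J hJ hJ'
      rw [Real.norm_eq_abs, abs_mul, hJ.1.bp_abs, hJ'.1.bp_abs, one_mul]
    have h4 : ∑ c, ∫ J, bp (σ n J) (st a (0, i)) * bp (g c n J) (st a (0, i)) ∂P =
        k * ∫ J, bp (σ n J) (st a (0, i)) * Mb k (0, i) (sh a J) ∂P := by
      rw [← integral_finsetSum _ fun c _ => i1 c, ← integral_const_mul]
      refine integral_congr_ae ?_
      filter_upwards [hp, hN, (sh_law μ a).quasiMeasurePreserving.ae (gd_ae hat hk hN)] with J
        h3 h4 h5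
      obtain ⟨π, hπ, h6⟩ := h3 n
      rw [← Finset.mul_sum, Mb_sh hk h4 h5]
      have h7 := sum_perm (J := J) (τ := fun c => g c n J) hπ
        (e := st a (0, i)) fun c => h6 c _ (st_FB ha i)
      rw [h7]
      unfold Mb
      field_simp
    rw [Finset.sum_congr rfl fun c _ => h3 c, ← Finset.sum_div, Finset.sum_sub_distrib, h4,
      Finset.sum_const, Finset.card_univ, Fintype.card_fin, nsmul_eq_mul]
    ring
  unfold Ds
  rw [← Finset.sum_div, Finset.sum_comm, Finset.sum_congr rfl h2, ← Finset.mul_sum,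
    ← avg_half hn]
  field_simp
  rw [hP]

/-- the size of the conditional expectation of an average -/
lemma nI_avg (hk : 0 < k) {f : Fin k → (E → ℝ) → ℝ} (hf : ∀ c, Measurable (f c)) {C : ℝ}
    (hC : ∀ c J, |f c J| ≤ C) (I : Set E) :
    nI μ I (fun J => (∑ c, f c J) / (k : ℝ)) ≤ (∑ c, nI μ I (f c)) / (k : ℝ) := by
  set P := infinitePi fun _ : E => μ with hP
  have hk' : (0 : ℝ) < k := by exact_mod_cast hk
  unfold nI
  have iC : ∀ c, Integrable (fun J => |CE μ I (f c) J|) P := fun c =>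
    int_bdd μ (CE_meas μ (hf c) I).abs (C := C) fun J => by
      rw [abs_abs]; exact CE_le μ (hC c) I J
  rw [← integral_finsetSum _ fun c _ => iC c, ← integral_div]
  have hmS : Measurable fun J => (∑ c, f c J) / (k : ℝ) :=
    (Finset.measurable_sum _ fun c _ => hf c).div_const _
  have hbS : ∀ J, |(∑ c, f c J) / (k : ℝ)| ≤ C := by
    intro J
    rw [abs_div, abs_of_pos hk', div_le_iff₀ hk']
    refine (Finset.abs_sum_le_sum_abs _ _).trans ?_
    refine (Finset.sum_le_sum fun c _ => hC c J).trans ?_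
    rw [Finset.sum_const, Finset.card_univ, Fintype.card_fin, nsmul_eq_mul, mul_comm]
  refine integral_mono (int_bdd μ (CE_meas μ hmS I).abs (C := C) fun J => by
    rw [abs_abs]; exact CE_le μ hbS I J) ((integrable_finsetSum _ fun c _ => iC c).div_const _)
    fun J => ?_
  have e1 : CE μ I (fun J => (∑ c, f c J) / (k : ℝ)) J = (∑ c, CE μ I (f c) J) / k := by
    unfold CE
    rw [integral_div, integral_finsetSum]
    intro c _
    exact int_bdd μ ((hf c).comp ((measurable_patch _).comp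
      (measurable_const.prodMk measurable_id))) (C := C) fun y => hC c _
  simp only [e1, abs_div, abs_of_pos hk']
  exact div_le_div_of_nonneg_right (Finset.abs_sum_le_sum_abs _ _) hk'.le

/-- hiding an arbitrary set of couplings: a family against the average over the ground states -/
theorem lim_mean (hμ : Integrable (fun x : ℝ => x) μ) (hat : ∀ x, μ {x} = 0) (hk : 0 < k)
    (hN : ∀ᵐ J ∂(infinitePi fun _ : E => μ), (GZ J).ncard = k) (i : Fin 2) (hs : Sq μ w σ)
    (U : ℕ → Set E) :
    Tendsto (fun L : ℕ => (∑ a ∈ pos L, Set.indicator (U L) (fun e =>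
      nI μ (insert e (U L)ᶜ) (fun J => cb (σ L) e J - Mb k e J)) (st a (0, i))) /
        (L : ℝ) ^ 2) atTop (𝓝 0) := by
  have hk' : (0 : ℝ) < k := by exact_mod_cast hk
  obtain ⟨w', g, hg, hp⟩ := exists_fam hat hk hN
  have h1 : Tendsto (fun L : ℕ => (∑ c : Fin k, (∑ a ∈ pos L, Set.indicator (U L) (fun e =>
      nI μ (insert e (U L)ᶜ) (fun J => cb (σ L) e J - cb (g c L) e J)) (st a (0, i))) /
        (L : ℝ) ^ 2) / (k : ℝ)) atTop (𝓝 ((∑ _c : Fin k, 0) / (k : ℝ))) :=
    (tendsto_finsetSum _ fun c _ => lim_det hμ hat i hs (hg c) U).div_const _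
  rw [Finset.sum_const_zero, zero_div] at h1
  refine squeeze_zero (fun L => div_nonneg (Finset.sum_nonneg fun a _ =>
    Set.indicator_nonneg (fun e _ => nI_nonneg _ _) _) (sq_nonneg _)) (fun L => ?_) h1
  rw [← Finset.sum_div, div_right_comm]
  refine div_le_div_of_nonneg_right ?_ (sq_nonneg _)
  rw [Finset.sum_comm, Finset.sum_div]
  refine Finset.sum_le_sum fun a ha => ?_
  by_cases hU : st a (0, i) ∈ U L
  · simp only [Set.indicator_of_mem hU]
    have h2 : (fun J => cb (σ L) (st a (0, i)) J - Mb k (st a (0, i)) J)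
        =ᵐ[infinitePi fun _ : E => μ] fun J =>
          (∑ c, (cb (σ L) (st a (0, i)) J - cb (g c L) (st a (0, i)) J)) / (k : ℝ) := by
      filter_upwards [hp, ae_all_iff.2 fun c => (hg c).gs L] with J h3 h4
      obtain ⟨π, hπ, h6⟩ := h3 L
      have h7 := sum_perm (J := J) (τ := fun c => g c L J) hπ
        (e := st a (0, i)) fun c => h6 c _ (st_FB ha i)
      rw [Finset.sum_sub_distrib, Finset.sum_const, Finset.card_univ, Fintype.card_fin,
        nsmul_eq_mul, Finset.sum_congr rfl fun c _ => cb_of (h4 c).1 _, h7]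
      unfold Mb
      field_simp
    rw [nI_congr h2]
    exact nI_avg hk (fun c => (cb_meas (hs.meas L) _).sub (cb_meas ((hg c).meas L) _))
      (fun c J => cbd_le _ _ _ J) _
  · simp only [Set.indicator_of_notMem hU, Finset.sum_const_zero, zero_div, le_refl]

end Pool.Agent.Helper24.FN
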